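import Mathlib

set_option autoImplicit false

/-! The gadget graph for compatible 2-factors and the basic counting functions. -/

namespace Pool.H28BE

open Finset

/-- Nodes of the gadget: one slot for every vertex and label, `q - 2` dummies per vertex. -/
abbrev Node (V ι : Type*) [Fintype ι] := (V × ι) ⊕ (V × Fin (Fintype.card ι - 2))

/-- The gadget graph. -/
def gadget {V ι : Type*} [Fintype ι] (κ : V → V → ι) : SimpleGraph (Node V ι) where
  Adj x y := match x, y with
    | Sum.inl (v, i), Sum.inl (u, j) => u ≠ v ∧ κ v u = i ∧ κ u v = j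
    | Sum.inl (v, _), Sum.inr (u, _) => u = v
    | Sum.inr (v, _), Sum.inl (u, _) => u = v
    | Sum.inr _, Sum.inr _ => False
  symm := by
    constructor
    intro x y h
    rcases x with ⟨v, i⟩ | ⟨v, k⟩ <;> rcases y with ⟨u, j⟩ | ⟨u, l⟩
    · exact ⟨h.1.symm, h.2.2, h.2.1⟩
    · exact h.symm
    · exact h.symm
    · exact h
  loopless := by
    constructor
    intro x h
    rcases x with ⟨v, i⟩ | ⟨v, k⟩
    · exact h.1 rfl
    · exact h

section Count

variable {V ι : Type*} [Fintype V] [DecidableEq V] [Fintype ι] [DecidableEq ι]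
variable (κ : V → V → ι) (S : Finset (Node V ι))

/-- slot `(v, i)` is removed -/
def sl (v : V) (i : ι) : Prop := (Sum.inl (v, i) : Node V ι) ∈ S

instance (v : V) (i : ι) : Decidable (sl S v i) := by unfold sl; infer_instance

/-- dummy `(v, k)` is removed -/
def dm (v : V) (k : Fin (Fintype.card ι - 2)) : Prop := (Sum.inr (v, k) : Node V ι) ∈ S

instance (v : V) (k : Fin (Fintype.card ι - 2)) : Decidable (dm S v k) := by
  unfold dm; infer_instance

def gv (v : V) : ℤ := ((univ.filter (fun u => u ≠ v ∧ sl S v (κ v u))).card : ℤ)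
def fv (v : V) : ℤ :=
  ((univ.filter (fun u => u ≠ v ∧ ¬ sl S v (κ v u) ∧ sl S u (κ u v))).card : ℤ)
def lv (v : V) : ℤ :=
  ((univ.filter (fun u => u ≠ v ∧ ¬ sl S v (κ v u) ∧ ¬ sl S u (κ u v))).card : ℤ)
def ld (v : V) (i : ι) : ℤ :=
  ((univ.filter (fun u => (u ≠ v ∧ ¬ sl S v (κ v u) ∧ ¬ sl S u (κ u v)) ∧ κ v u = i)).card : ℤ)
def ic (v : V) : ℤ := ((univ.filter (fun i => sl S v i)).card : ℤ)
def dc (v : V) : ℤ := ((univ.filter (fun k => dm S v k)).card : ℤ)

theorem gfl (v : V) : gv κ S v + fv κ S v + lv κ S v = (Fintype.card V : ℤ) - 1 := by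
  have h1 : (univ.filter (fun u : V => u ≠ v)).card = Fintype.card V - 1 := by
    rw [Finset.filter_ne', Finset.card_erase_of_mem (mem_univ v), Finset.card_univ]
  have h2 := Finset.card_filter_add_card_filter_not (s := univ.filter (fun u : V => u ≠ v))
    (fun u => sl S v (κ v u))
  have h3 := Finset.card_filter_add_card_filter_not
    (s := (univ.filter (fun u : V => u ≠ v)).filter (fun u => ¬ sl S v (κ v u)))
    (fun u => sl S u (κ u v))
  simp only [Finset.filter_filter, and_assoc] at h2 h3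
  have hpos : 1 ≤ Fintype.card V := Fintype.card_pos_iff.mpr ⟨v⟩
  unfold gv fv lv
  have e1 : (univ.filter (fun u => u ≠ v ∧ sl S v (κ v u))).card
      + ((univ.filter (fun u => u ≠ v ∧ ¬ sl S v (κ v u) ∧ sl S u (κ u v))).card
      + (univ.filter (fun u => u ≠ v ∧ ¬ sl S v (κ v u) ∧ ¬ sl S u (κ u v))).card)
      = Fintype.card V - 1 := by
    rw [h3, h2, h1]
  omega

theorem gv_nonneg (v : V) : 0 ≤ gv κ S v := by unfold gv; positivity
theorem fv_nonneg (v : V) : 0 ≤ fv κ S v := by unfold fv; positivity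
theorem lv_nonneg (v : V) : 0 ≤ lv κ S v := by unfold lv; positivity
theorem ld_nonneg (v : V) (i : ι) : 0 ≤ ld κ S v i := by unfold ld; positivity
theorem ic_nonneg (v : V) : 0 ≤ ic S v := by unfold ic; positivity
theorem dc_nonneg (v : V) : 0 ≤ dc S v := by unfold dc; positivity

theorem gv_le {D : ℕ}
    (hD : ∀ v i, (univ.filter (fun u => u ≠ v ∧ κ v u = i)).card ≤ D) (v : V) :
    gv κ S v ≤ D * ic S v := by
  unfold gv ic
  have h : (univ.filter (fun u => u ≠ v ∧ sl S v (κ v u)))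
      ⊆ (univ.filter (fun i => sl S v i)).biUnion
        (fun i => univ.filter (fun u => u ≠ v ∧ κ v u = i)) := by
    intro u hu
    simp only [mem_filter, mem_univ, true_and, mem_biUnion] at hu ⊢
    exact ⟨κ v u, hu.2, hu.1, rfl⟩
  have h2 := (Finset.card_le_card h).trans Finset.card_biUnion_le
  have h3 : ∑ i ∈ univ.filter (fun i => sl S v i),
      (univ.filter (fun u => u ≠ v ∧ κ v u = i)).card
      ≤ ∑ i ∈ univ.filter (fun i => sl S v i), D := Finset.sum_le_sum (fun i _ => hD v i)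
  rw [Finset.sum_const, smul_eq_mul] at h3
  have h4 := h2.trans h3
  have : ((univ.filter (fun u => u ≠ v ∧ sl S v (κ v u))).card : ℤ)
      ≤ ((univ.filter (fun i => sl S v i)).card * D : ℕ) := by exact_mod_cast h4
  rw [Nat.cast_mul] at this
  linarith [mul_comm ((univ.filter (fun i => sl S v i)).card : ℤ) (D : ℤ)]

theorem ld_le {D : ℕ}
    (hD : ∀ v i, (univ.filter (fun u => u ≠ v ∧ κ v u = i)).card ≤ D) (v : V) (i : ι) :
    ld κ S v i ≤ D := by
  unfold ld
  have : (univ.filter (fun u => (u ≠ v ∧ ¬ sl S v (κ v u) ∧ ¬ sl S u (κ u v)) ∧ κ v u = i)).card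
      ≤ D := by
    refine (Finset.card_le_card ?_).trans (hD v i)
    intro u hu
    simp only [mem_filter, mem_univ, true_and] at hu ⊢
    exact ⟨hu.1.1, hu.2⟩
  exact_mod_cast this

theorem sum_ld (v : V) : ∑ i, ld κ S v i = lv κ S v := by
  unfold ld lv
  rw [← Nat.cast_sum]
  congr 1
  have := Finset.card_eq_sum_card_fiberwise
    (s := univ.filter (fun u => u ≠ v ∧ ¬ sl S v (κ v u) ∧ ¬ sl S u (κ u v)))
    (t := (univ : Finset ι)) (f := fun u => κ v u) (fun x _ => mem_univ _)
  rw [this]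
  apply Finset.sum_congr rfl
  intro i _
  rw [Finset.filter_filter]

theorem ld_eq_zero (v : V) (i : ι) (h : sl S v i) : ld κ S v i = 0 := by
  unfold ld
  rw [Nat.cast_eq_zero, Finset.card_eq_zero, Finset.filter_eq_empty_iff]
  rintro u _ ⟨⟨_, h2, _⟩, h4⟩
  rw [h4] at h2
  exact h2 h

theorem sum_f_le_g : ∑ v, fv κ S v ≤ ∑ v, gv κ S v := by
  unfold fv gv
  rw [← Nat.cast_sum, ← Nat.cast_sum]
  apply Nat.cast_le.mpr
  simp only [Finset.card_filter]
  rw [Finset.sum_comm]
  apply Finset.sum_le_sum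
  intro u _
  apply Finset.sum_le_sum
  intro v _
  by_cases h : u ≠ v ∧ ¬ sl S v (κ v u) ∧ sl S u (κ u v)
  · rw [if_pos h, if_pos ⟨h.1.symm, h.2.2⟩]
  · rw [if_neg h]; exact Nat.zero_le _

theorem gv_le_all (v : V) : gv κ S v ≤ (Fintype.card V : ℤ) - 1 := by
  have := gfl κ S v
  have := fv_nonneg κ S v
  have := lv_nonneg κ S v
  linarith

end Count

end Pool.H28BE
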