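import Pool.Agent.H28.BE.Cost

set_option autoImplicit false

/-! Analysis of one odd class of the gadget. -/

namespace Pool.H28BE

open Finset

section Count

variable {V ι : Type*} [Fintype V] [DecidableEq V] [Fintype ι] [DecidableEq ι]
variable (κ : V → V → ι) (S : Finset (Node V ι))
variable (r : V → Fin (Fintype.card ι - 2))

/-- part of a sum over nodes belonging to one vertex -/
def vs (T : Finset (Node V ι)) (φ : Node V ι → ℤ) (v : V) : ℤ :=
  ∑ i, (if (Sum.inl (v, i) : Node V ι) ∈ T then φ (Sum.inl (v, i)) else 0)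
      + ∑ k, (if (Sum.inr (v, k) : Node V ι) ∈ T then φ (Sum.inr (v, k)) else 0)

theorem sum_vs (T : Finset (Node V ι)) (φ : Node V ι → ℤ) :
    ∑ x ∈ T, φ x = ∑ v, vs T φ v := sum_node φ T

theorem vs_nonneg (T : Finset (Node V ι)) (φ : Node V ι → ℤ) (h : ∀ x, 0 ≤ φ x) (v : V) :
    0 ≤ vs T φ v := by
  unfold vs
  apply add_nonneg
  · apply Finset.sum_nonneg
    intro i _
    split_ifs
    · exact h _
    · exact le_refl _
  · apply Finset.sum_nonneg
    intro i _
    split_ifs
    · exact h _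
    · exact le_refl _

theorem le_vs_inl (T : Finset (Node V ι)) (φ : Node V ι → ℤ) (h : ∀ x, 0 ≤ φ x) (v : V) (i : ι)
    (hi : (Sum.inl (v, i) : Node V ι) ∈ T) : φ (Sum.inl (v, i)) ≤ vs T φ v := by
  unfold vs
  have h1 : φ (Sum.inl (v, i)) ≤
      ∑ i, (if (Sum.inl (v, i) : Node V ι) ∈ T then φ (Sum.inl (v, i)) else 0) := by
    have := Finset.single_le_sum
      (f := fun i => if (Sum.inl (v, i) : Node V ι) ∈ T then φ (Sum.inl (v, i)) else 0)
      (s := univ) (fun i _ => by split_ifs; exacts [h _, le_refl _]) (mem_univ i)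
    simpa [hi] using this
  have h2 : 0 ≤ ∑ k, (if (Sum.inr (v, k) : Node V ι) ∈ T then φ (Sum.inr (v, k)) else 0) := by
    apply Finset.sum_nonneg
    intro i _
    split_ifs
    · exact h _
    · exact le_refl _
  linarith

theorem le_vs_inr (T : Finset (Node V ι)) (φ : Node V ι → ℤ) (h : ∀ x, 0 ≤ φ x) (v : V)
    (k : Fin (Fintype.card ι - 2))
    (hi : (Sum.inr (v, k) : Node V ι) ∈ T) : φ (Sum.inr (v, k)) ≤ vs T φ v := by
  unfold vs
  have h1 : φ (Sum.inr (v, k)) ≤
      ∑ k, (if (Sum.inr (v, k) : Node V ι) ∈ T then φ (Sum.inr (v, k)) else 0) := by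
    have := Finset.single_le_sum
      (f := fun k => if (Sum.inr (v, k) : Node V ι) ∈ T then φ (Sum.inr (v, k)) else 0)
      (s := univ) (fun i _ => by split_ifs; exacts [h _, le_refl _]) (mem_univ k)
    simpa [hi] using this
  have h2 : 0 ≤ ∑ k, (if (Sum.inl (v, k) : Node V ι) ∈ T then φ (Sum.inl (v, k)) else 0) := by
    apply Finset.sum_nonneg
    intro i _
    split_ifs
    · exact h _
    · exact le_refl _
  linarith

/-- closedness of the labelling under adjacency -/
def Closed (comp : Node V ι → Node V ι) : Prop :=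
  ∀ x y, x ∉ S → y ∉ S → (gadget κ).Adj x y → comp x = comp y

/-- `v` is a hub: some dummy and some slot survive -/
def hub (v : V) : Prop := ¬ isP S v ∧ ¬ isF S v

instance (v : V) : Decidable (hub S v) := by unfold hub; infer_instance

variable {κ S r}

theorem comp_slot {comp : Node V ι → Node V ι} (hc : Closed κ S comp)
    (hr : ∀ v, ¬ isP S v → ¬ dm S v (r v)) (v : V) (hP : ¬ isP S v) (i : ι) (hi : ¬ sl S v i) :
    comp (Sum.inl (v, i)) = comp (Sum.inr (v, r v)) :=
  hc _ _ hi (hr v hP) rfl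

theorem comp_dummy {comp : Node V ι → Node V ι} (hc : Closed κ S comp)
    (hr : ∀ v, ¬ isP S v → ¬ dm S v (r v)) (v : V) (hP : ¬ isP S v) (hF : ¬ isF S v)
    (k : Fin (Fintype.card ι - 2)) (hk : ¬ dm S v k) :
    comp (Sum.inr (v, k)) = comp (Sum.inr (v, r v)) := by
  unfold isF at hF
  push Not at hF
  obtain ⟨i, hi⟩ := hF
  rw [← comp_slot hc hr v hP i hi]
  exact hc _ _ hk hi rfl

theorem comp_live {comp : Node V ι → Node V ι} (hc : Closed κ S comp) (v u : V) (huv : u ≠ v)
    (h1 : ¬ sl S v (κ v u)) (h2 : ¬ sl S u (κ u v)) :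
    comp (Sum.inl (v, κ v u)) = comp (Sum.inl (u, κ u v)) :=
  hc _ _ h1 h2 ⟨huv, rfl, rfl⟩

theorem live_tf {comp : Node V ι → Node V ι} (hc : Closed κ S comp)
    (hr : ∀ v, ¬ isP S v → ¬ dm S v (r v)) (K : Node V ι) (u : V) (i : ι) (hi : ¬ sl S u i)
    (hK : comp (Sum.inl (u, i)) = K) :
    1 ≤ vs (Sᶜ.filter (fun x => comp x = K)) (tf κ S r) u := by
  by_cases hP : isP S u
  · have hmem : (Sum.inl (u, i) : Node V ι) ∈ Sᶜ.filter (fun x => comp x = K) := by
      rw [mem_filter, mem_compl]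
      exact ⟨hi, hK⟩
    have := le_vs_inl _ (tf κ S r) (tf_nonneg κ S r) u i hmem
    simpa [tf, hP] using this
  · have hF : ¬ isF S u := fun h => hi (h i)
    have hmem : (Sum.inr (u, r u) : Node V ι) ∈ Sᶜ.filter (fun x => comp x = K) := by
      rw [mem_filter, mem_compl]
      refine ⟨hr u hP, ?_⟩
      rw [← comp_slot hc hr u hP i hi, hK]
    have := le_vs_inr _ (tf κ S r) (tf_nonneg κ S r) u (r u) hmem
    have h9 := fv_nonneg κ S u
    simp only [tf, hF, if_false, if_true] at this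
    linarith

/-- a hub sees `n - g` -/
theorem hub_tf {comp : Node V ι → Node V ι} (hc : Closed κ S comp)
    (hr : ∀ v, ¬ isP S v → ¬ dm S v (r v)) (K : Node V ι) (v : V) (hv : hub S v)
    (hK : comp (Sum.inr (v, r v)) = K) :
    (Fintype.card V : ℤ) - gv κ S v
      ≤ ∑ x ∈ Sᶜ.filter (fun x => comp x = K), tf κ S r x := by
  rw [sum_vs]
  have key : ∀ u, (if u = v then 1 + fv κ S v else 0)
      + (if u ≠ v ∧ ¬ sl S v (κ v u) ∧ ¬ sl S u (κ u v) then 1 else 0)
      ≤ vs (Sᶜ.filter (fun x => comp x = K)) (tf κ S r) u := by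
    intro u
    by_cases huv : u = v
    · subst huv
      have hmem : (Sum.inr (u, r u) : Node V ι) ∈ Sᶜ.filter (fun x => comp x = K) := by
        rw [mem_filter, mem_compl]
        exact ⟨hr u hv.1, hK⟩
      have := le_vs_inr _ (tf κ S r) (tf_nonneg κ S r) u (r u) hmem
      simp only [tf, hv.2, if_false, if_true] at this
      simpa using this
    · by_cases hl : u ≠ v ∧ ¬ sl S v (κ v u) ∧ ¬ sl S u (κ u v)
      · rw [if_neg huv, if_pos hl, zero_add]
        apply live_tf hc hr K u (κ u v) hl.2.2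
        rw [← comp_live hc v u hl.1 hl.2.1 hl.2.2, comp_slot hc hr v hv.1 _ hl.2.1, hK]
      · rw [if_neg huv, if_neg hl, zero_add]
        exact vs_nonneg _ _ (tf_nonneg κ S r) u
  refine le_trans ?_ (Finset.sum_le_sum (fun u _ => key u))
  rw [Finset.sum_add_distrib, Finset.sum_ite_eq' univ v, if_pos (mem_univ v)]
  have h1 : ∑ u, (if u ≠ v ∧ ¬ sl S v (κ v u) ∧ ¬ sl S u (κ u v) then (1 : ℤ) else 0)
      = lv κ S v := by
    unfold lv
    rw [Finset.card_filter]
    push_cast
    rfl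
  rw [h1]
  have := gfl κ S v
  linarith

variable {D : ℕ}

theorem hub_cost (hD : ∀ v i, (univ.filter (fun u => u ≠ v ∧ κ v u = i)).card ≤ D)
    (h2 : 2 * D + 2 ≤ Fintype.card V) {comp : Node V ι → Node V ι}
    (hr : ∀ v, ¬ isP S v → ¬ dm S v (r v)) (K : Node V ι) (v : V) (hv : hub S v)
    (hK : comp (Sum.inr (v, r v)) = K) :
    tau κ S v ≤ ∑ x ∈ Sᶜ.filter (fun x => comp x = K), mc κ S r x := by
  have hmem : (Sum.inr (v, r v) : Node V ι) ∈ Sᶜ.filter (fun x => comp x = K) := by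
    rw [mem_filter, mem_compl]
    exact ⟨hr v hv.1, hK⟩
  have := Finset.single_le_sum (f := mc κ S r) (fun x _ => mc_nonneg κ S r hD h2 x) hmem
  refine le_trans ?_ this
  simp [mc, hv.2]

/-- (E2'): positivity -/
theorem e2_pos (hD : ∀ v i, (univ.filter (fun u => u ≠ v ∧ κ v u = i)).card ≤ D)
    (h2 : 2 * D + 2 ≤ Fintype.card V) {comp : Node V ι → Node V ι} (hc : Closed κ S comp)
    (hr : ∀ v, ¬ isP S v → ¬ dm S v (r v)) (K : Node V ι)
    (hne : (Sᶜ.filter (fun x => comp x = K)).Nonempty) :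
    0 < ∑ x ∈ Sᶜ.filter (fun x => comp x = K), mc κ S r x ∨
    (Fintype.card V : ℤ) ≤ ∑ x ∈ Sᶜ.filter (fun x => comp x = K), tf κ S r x := by
  have h5 : (2 * (D : ℤ) + 2 ≤ Fintype.card V) := by exact_mod_cast h2
  have hD0 : (0 : ℤ) ≤ D := by positivity
  have hubcase : ∀ v, hub S v → comp (Sum.inr (v, r v)) = K →
      0 < ∑ x ∈ Sᶜ.filter (fun x => comp x = K), mc κ S r x ∨
      (Fintype.card V : ℤ) ≤ ∑ x ∈ Sᶜ.filter (fun x => comp x = K), tf κ S r x := by
    intro v hv hK
    by_cases h0 : ic S v = 0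
    · right
      have h1 := hub_tf hc hr K v hv hK
      have h3 := gv_le κ S hD v
      rw [h0, mul_zero] at h3
      linarith
    · left
      have h1 := hub_cost hD h2 hr K v hv hK
      have h3 := tau_lower κ S hD h2 v
      have h4 := ic_nonneg S v
      have h7 := dc_nonneg S v
      have h8 := fv_nonneg κ S v
      have h9 : 0 ≤ ((Fintype.card V : ℤ) - 1) * dc S v := mul_nonneg (by linarith) h7
      have h10 : 0 < ic S v := lt_of_le_of_ne h4 (Ne.symm h0)
      linarith
  obtain ⟨x, hx⟩ := hne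
  have hx' := hx
  rw [mem_filter, mem_compl] at hx
  have hsingle := Finset.single_le_sum (f := mc κ S r) (fun x _ => mc_nonneg κ S r hD h2 x) hx'
  rcases x with ⟨v, i⟩ | ⟨v, k⟩
  · by_cases hP : isP S v
    · left
      have e : mc κ S r (Sum.inl (v, i)) = ((Fintype.card V : ℤ) - 1) - 2 * ld κ S v i := by
        simp [mc, hP]
      rw [e] at hsingle
      have := ld_le κ S hD v i
      linarith
    · apply hubcase v ⟨hP, fun h => hx.1 (h i)⟩
      rw [← comp_slot hc hr v hP i hx.1, hx.2]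
  · have hP : ¬ isP S v := fun h => hx.1 (h k)
    by_cases hF : isF S v
    · left
      have e : mc κ S r (Sum.inr (v, k)) = ((Fintype.card V : ℤ) - 1) := by
        simp [mc, hF]
      rw [e] at hsingle
      linarith
    · apply hubcase v ⟨hP, hF⟩
      rw [← comp_dummy hc hr v hP hF k hx.1, hx.2]

end Count

end Pool.H28BE
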