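import Pool.Agent.H28.BE.Basic

set_option autoImplicit false

/-! Costs of the nodes of the gadget. -/

namespace Pool.H28BE

open Finset

section Count

variable {V ι : Type*} [Fintype V] [DecidableEq V] [Fintype ι] [DecidableEq ι]
variable (κ : V → V → ι) (S : Finset (Node V ι))

/-- all dummies of `v` are removed -/
def isP (v : V) : Prop := ∀ k, dm S v k
/-- all slots of `v` are removed -/
def isF (v : V) : Prop := ∀ i, sl S v i

instance (v : V) : Decidable (isP S v) := by unfold isP; infer_instance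
instance (v : V) : Decidable (isF S v) := by unfold isF; infer_instance

variable (r : V → Fin (Fintype.card ι - 2))

/-- hub cost -/
def tau (v : V) : ℤ :=
  ((Fintype.card V : ℤ) - 1) * (ic S v + dc S v) - 2 * gv κ S v + 2 * fv κ S v

/-- cost of a node -/
def mc : Node V ι → ℤ
  | Sum.inl (v, i) => if isP S v then ((Fintype.card V : ℤ) - 1) - 2 * ld κ S v i else 0
  | Sum.inr (v, k) => if isF S v then ((Fintype.card V : ℤ) - 1) else
      if k = r v then tau κ S v else 0

/-- weight of a node -/
def tf : Node V ι → ℤ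
  | Sum.inl (v, _) => if isP S v then 1 else 0
  | Sum.inr (v, k) => if isF S v then 0 else if k = r v then 1 + fv κ S v else 0

theorem sum_node (φ : Node V ι → ℤ) (T : Finset (Node V ι)) :
    ∑ x ∈ T, φ x = ∑ v, (∑ i, (if (Sum.inl (v, i) : Node V ι) ∈ T then φ (Sum.inl (v, i)) else 0)
      + ∑ k, (if (Sum.inr (v, k) : Node V ι) ∈ T then φ (Sum.inr (v, k)) else 0)) := by
  rw [← Finset.sum_filter_add_sum_filter_not T (fun x => x.isLeft)]
  have h1 : ∑ x ∈ T, φ x = ∑ x : Node V ι, if x ∈ T then φ x else 0 := by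
    rw [← Finset.sum_filter]
    simp
  rw [Finset.sum_filter_add_sum_filter_not, h1, Fintype.sum_sum_type, Fintype.sum_prod_type,
    Fintype.sum_prod_type, ← Finset.sum_add_distrib]

variable {D : ℕ}

theorem tau_lower (hD : ∀ v i, (univ.filter (fun u => u ≠ v ∧ κ v u = i)).card ≤ D)
    (h2 : 2 * D + 2 ≤ Fintype.card V) (v : V) :
    ic S v + ((Fintype.card V : ℤ) - 1) * dc S v + 2 * fv κ S v ≤ tau κ S v := by
  unfold tau
  have h3 := gv_le κ S hD v
  have h4 := ic_nonneg S v
  have h5 : (2 * (D : ℤ) + 2 ≤ Fintype.card V) := by exact_mod_cast h2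
  nlinarith

theorem mc_nonneg (hD : ∀ v i, (univ.filter (fun u => u ≠ v ∧ κ v u = i)).card ≤ D)
    (h2 : 2 * D + 2 ≤ Fintype.card V) (x : Node V ι) : 0 ≤ mc κ S r x := by
  have h5 : (2 * (D : ℤ) + 2 ≤ Fintype.card V) := by exact_mod_cast h2
  rcases x with ⟨v, i⟩ | ⟨v, k⟩
  · unfold mc
    dsimp only
    split_ifs
    · have := ld_le κ S hD v i
      linarith
    · exact le_refl _
  · unfold mc
    dsimp only
    split_ifs
    · have : (0 : ℤ) ≤ D := by positivity
      linarith
    · have h6 := tau_lower κ S hD h2 v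
      have h7 := ic_nonneg S v
      have h8 := dc_nonneg S v
      have h9 := fv_nonneg κ S v
      have h10 : (0 : ℤ) ≤ D := by positivity
      have : 0 ≤ ((Fintype.card V : ℤ) - 1) * dc S v := mul_nonneg (by linarith) h8
      linarith
    · exact le_refl _

theorem tf_nonneg (x : Node V ι) : 0 ≤ tf κ S r x := by
  rcases x with ⟨v, i⟩ | ⟨v, k⟩
  · unfold tf
    dsimp only
    split_ifs <;> norm_num
  · unfold tf
    dsimp only
    have h9 := fv_nonneg κ S v
    split_ifs <;> linarith

/-- (E1), vertexwise -/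
theorem e1_vertex (hD : ∀ v i, (univ.filter (fun u => u ≠ v ∧ κ v u = i)).card ≤ D)
    (h2 : 2 * D + 2 ≤ Fintype.card V) (hq : 3 ≤ Fintype.card ι)
    (hr : ∀ v, ¬ isP S v → ¬ dm S v (r v)) (v : V) :
    (∑ i, (if (Sum.inl (v, i) : Node V ι) ∈ Sᶜ then mc κ S r (Sum.inl (v, i)) else 0)
      + ∑ k, (if (Sum.inr (v, k) : Node V ι) ∈ Sᶜ then mc κ S r (Sum.inr (v, k)) else 0))
    ≤ ((Fintype.card V : ℤ) - 1) * (ic S v + dc S v) - 2 * gv κ S v + 2 * fv κ S v := by
  have h5 : (2 * (D : ℤ) + 2 ≤ Fintype.card V) := by exact_mod_cast h2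
  have hg := gv_le κ S hD v
  have hg' := gv_le_all κ S v
  have hgfl := gfl κ S v
  have hic := ic_nonneg S v
  have hdc := dc_nonneg S v
  have hfv := fv_nonneg κ S v
  have hlv := lv_nonneg κ S v
  have hgv := gv_nonneg κ S v
  have hD0 : (0 : ℤ) ≤ D := by positivity
  have hnotslots : ((univ.filter (fun i => ¬ sl S v i)).card : ℤ)
      = (Fintype.card ι : ℤ) - ic S v := by
    unfold ic
    have := Finset.card_filter_add_card_filter_not (s := (univ : Finset ι)) (fun i => sl S v i)
    rw [Finset.card_univ] at this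
    omega
  have hnotdum : ((univ.filter (fun k => ¬ dm S v k)).card : ℤ)
      = (Fintype.card ι : ℤ) - 2 - dc S v := by
    unfold dc
    have := Finset.card_filter_add_card_filter_not
      (s := (univ : Finset (Fin (Fintype.card ι - 2)))) (fun k => dm S v k)
    rw [Finset.card_univ, Fintype.card_fin] at this
    omega
  by_cases hP : isP S v
  · -- all dummies removed
    have hd : dc S v = (Fintype.card ι : ℤ) - 2 := by
      have : (univ.filter (fun k => ¬ dm S v k)).card = 0 := by
        rw [Finset.card_eq_zero, Finset.filter_eq_empty_iff]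
        intro k _ hk
        exact hk (hP k)
      rw [this] at hnotdum
      simp at hnotdum
      linarith
    have s2 : ∑ k, (if (Sum.inr (v, k) : Node V ι) ∈ Sᶜ then mc κ S r (Sum.inr (v, k)) else 0)
        = 0 := by
      apply Finset.sum_eq_zero
      intro k _
      have : (Sum.inr (v, k) : Node V ι) ∈ S := hP k
      simp [this]
    have s1 : ∑ i, (if (Sum.inl (v, i) : Node V ι) ∈ Sᶜ then mc κ S r (Sum.inl (v, i)) else 0)
        = ((Fintype.card V : ℤ) - 1) * ((Fintype.card ι : ℤ) - ic S v) - 2 * lv κ S v := by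
      have : ∀ i, (if (Sum.inl (v, i) : Node V ι) ∈ Sᶜ then mc κ S r (Sum.inl (v, i)) else 0)
          = (if ¬ sl S v i then ((Fintype.card V : ℤ) - 1) else 0) - 2 * ld κ S v i := by
        intro i
        by_cases hi : sl S v i
        · have hi' : (Sum.inl (v, i) : Node V ι) ∈ S := hi
          simp [hi, hi', ld_eq_zero κ S v i hi]
        · have hi' : (Sum.inl (v, i) : Node V ι) ∉ S := hi
          simp [hi, hi', mc, hP]
      rw [Finset.sum_congr rfl (fun i _ => this i), Finset.sum_sub_distrib, ← Finset.mul_sum,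
        sum_ld, ← Finset.sum_filter, Finset.sum_const, nsmul_eq_mul, hnotslots]
      ring
    rw [s1, s2, hd]
    nlinarith
  · by_cases hF : isF S v
    · have s1 : ∑ i, (if (Sum.inl (v, i) : Node V ι) ∈ Sᶜ then mc κ S r (Sum.inl (v, i)) else 0)
          = 0 := by
        apply Finset.sum_eq_zero
        intro i _
        have : (Sum.inl (v, i) : Node V ι) ∈ S := hF i
        simp [this]
      have hi : ic S v = (Fintype.card ι : ℤ) := by
        have : (univ.filter (fun i => ¬ sl S v i)).card = 0 := by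
          rw [Finset.card_eq_zero, Finset.filter_eq_empty_iff]
          intro k _ hk
          exact hk (hF k)
        rw [this] at hnotslots
        simp at hnotslots
        linarith
      have s2 : ∑ k, (if (Sum.inr (v, k) : Node V ι) ∈ Sᶜ then mc κ S r (Sum.inr (v, k)) else 0)
          = ((Fintype.card V : ℤ) - 1) * ((Fintype.card ι : ℤ) - 2 - dc S v) := by
        have : ∀ k, (if (Sum.inr (v, k) : Node V ι) ∈ Sᶜ then mc κ S r (Sum.inr (v, k)) else 0)
            = (if ¬ dm S v k then ((Fintype.card V : ℤ) - 1) else 0) := by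
          intro k
          by_cases hk : dm S v k
          · have hk' : (Sum.inr (v, k) : Node V ι) ∈ S := hk
            simp [hk, hk']
          · have hk' : (Sum.inr (v, k) : Node V ι) ∉ S := hk
            simp [hk, hk', mc, hF]
        rw [Finset.sum_congr rfl (fun k _ => this k), ← Finset.sum_filter, Finset.sum_const,
          nsmul_eq_mul, hnotdum]
        ring
      rw [s1, s2, hi]
      nlinarith
    · have s1 : ∑ i, (if (Sum.inl (v, i) : Node V ι) ∈ Sᶜ then mc κ S r (Sum.inl (v, i)) else 0)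
          = 0 := by
        apply Finset.sum_eq_zero
        intro i _
        simp [mc, hP]
      have s2 : ∑ k, (if (Sum.inr (v, k) : Node V ι) ∈ Sᶜ then mc κ S r (Sum.inr (v, k)) else 0)
          = tau κ S v := by
        rw [Finset.sum_eq_single (r v)]
        · have hk' : (Sum.inr (v, r v) : Node V ι) ∉ S := hr v hP
          simp [hk', mc, hF]
        · intro k _ hk
          simp [mc, hF, hk]
        · intro h
          exact absurd (mem_univ _) h
      rw [s1, s2]
      unfold tau
      linarith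

theorem card_eq_sum_ic_dc : (S.card : ℤ) = ∑ v, (ic S v + dc S v) := by
  have h := sum_node (fun _ => 1) S
  rw [Finset.sum_const, nsmul_eq_mul, mul_one] at h
  rw [h]
  apply Finset.sum_congr rfl
  intro v _
  unfold ic dc
  rw [Finset.card_filter, Finset.card_filter]
  push_cast
  rfl

/-- (E1) -/
theorem e1 (hD : ∀ v i, (univ.filter (fun u => u ≠ v ∧ κ v u = i)).card ≤ D)
    (h2 : 2 * D + 2 ≤ Fintype.card V) (hq : 3 ≤ Fintype.card ι)
    (hr : ∀ v, ¬ isP S v → ¬ dm S v (r v)) :
    ∑ x ∈ Sᶜ, mc κ S r x ≤ ((Fintype.card V : ℤ) - 1) * S.card := by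
  rw [sum_node, card_eq_sum_ic_dc]
  refine (Finset.sum_le_sum (fun v _ => e1_vertex κ S r hD h2 hq hr v)).trans ?_
  have := sum_f_le_g κ S
  rw [Finset.sum_add_distrib, Finset.sum_sub_distrib, ← Finset.mul_sum, ← Finset.mul_sum,
    ← Finset.mul_sum]
  linarith

/-- (E3), vertexwise -/
theorem e3_vertex (hD : ∀ v i, (univ.filter (fun u => u ≠ v ∧ κ v u = i)).card ≤ D)
    (h2 : 2 * D + 2 ≤ Fintype.card V) (hn : 5 ≤ Fintype.card V)
    (T : Finset (Node V ι)) (hT : ∀ x ∈ T, x ∉ S) (v : V) :
    2 * ((∑ i, (if (Sum.inl (v, i) : Node V ι) ∈ T then tf κ S r (Sum.inl (v, i)) else 0)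
      + ∑ k, (if (Sum.inr (v, k) : Node V ι) ∈ T then tf κ S r (Sum.inr (v, k)) else 0)) - 1)
    ≤ (∑ i, (if (Sum.inl (v, i) : Node V ι) ∈ T then mc κ S r (Sum.inl (v, i)) else 0)
      + ∑ k, (if (Sum.inr (v, k) : Node V ι) ∈ T then mc κ S r (Sum.inr (v, k)) else 0)) := by
  have h5 : (2 * (D : ℤ) + 2 ≤ Fintype.card V) := by exact_mod_cast h2
  have hn' : (5 : ℤ) ≤ Fintype.card V := by exact_mod_cast hn
  have hD0 : (0 : ℤ) ≤ D := by positivity
  by_cases hP : isP S v
  · have s2 : ∀ φ : Node V ι → ℤ,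
        ∑ k, (if (Sum.inr (v, k) : Node V ι) ∈ T then φ (Sum.inr (v, k)) else 0) = 0 := by
      intro φ
      apply Finset.sum_eq_zero
      intro k _
      have : (Sum.inr (v, k) : Node V ι) ∉ T := fun h => hT _ h (hP k)
      simp [this]
    rw [s2, s2]
    set A := univ.filter (fun i => (Sum.inl (v, i) : Node V ι) ∈ T) with hA
    have e1 : ∑ i, (if (Sum.inl (v, i) : Node V ι) ∈ T then tf κ S r (Sum.inl (v, i)) else 0)
        = (A.card : ℤ) := by
      rw [← Finset.sum_filter, ← hA]
      simp [tf, hP]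
    have e2 : ∑ i, (if (Sum.inl (v, i) : Node V ι) ∈ T then mc κ S r (Sum.inl (v, i)) else 0)
        = ∑ i ∈ A, (((Fintype.card V : ℤ) - 1) - 2 * ld κ S v i) := by
      rw [← Finset.sum_filter, ← hA]
      apply Finset.sum_congr rfl
      intro i _
      simp [mc, hP]
    rw [e1, e2]
    have b1 : (A.card : ℤ) ≤ ∑ i ∈ A, (((Fintype.card V : ℤ) - 1) - 2 * ld κ S v i) := by
      have : ∑ i ∈ A, (1 : ℤ) ≤ ∑ i ∈ A, (((Fintype.card V : ℤ) - 1) - 2 * ld κ S v i) := by
        apply Finset.sum_le_sum
        intro i _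
        have := ld_le κ S hD v i
        linarith
      simpa using this
    have b2 : ((A.card : ℤ) - 2) * ((Fintype.card V : ℤ) - 1)
        ≤ ∑ i ∈ A, (((Fintype.card V : ℤ) - 1) - 2 * ld κ S v i) := by
      rw [Finset.sum_sub_distrib, Finset.sum_const, nsmul_eq_mul, ← Finset.mul_sum]
      have h6 : ∑ i ∈ A, ld κ S v i ≤ lv κ S v := by
        rw [← sum_ld]
        exact Finset.sum_le_sum_of_subset_of_nonneg (Finset.subset_univ A)
          (fun i _ _ => ld_nonneg κ S v i)
      have h7 := gfl κ S v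
      have h8 := gv_nonneg κ S v
      have h9 := fv_nonneg κ S v
      nlinarith
    by_cases h3 : A.card ≤ 2
    · have : (A.card : ℤ) ≤ 2 := by exact_mod_cast h3
      linarith
    · have : (3 : ℤ) ≤ A.card := by exact_mod_cast (by omega : 3 ≤ A.card)
      nlinarith
  · by_cases hF : isF S v
    · have s1 : ∀ φ : Node V ι → ℤ,
          ∑ i, (if (Sum.inl (v, i) : Node V ι) ∈ T then φ (Sum.inl (v, i)) else 0) = 0 := by
        intro φ
        apply Finset.sum_eq_zero
        intro k _
        have : (Sum.inl (v, k) : Node V ι) ∉ T := fun h => hT _ h (hF k)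
        simp [this]
      rw [s1, s1]
      have e1 : ∑ k, (if (Sum.inr (v, k) : Node V ι) ∈ T then tf κ S r (Sum.inr (v, k)) else 0)
          = 0 := by
        apply Finset.sum_eq_zero
        intro k _
        simp [tf, hF]
      have e2 : 0 ≤ ∑ k, (if (Sum.inr (v, k) : Node V ι) ∈ T
          then mc κ S r (Sum.inr (v, k)) else 0) := by
        apply Finset.sum_nonneg
        intro k _
        split_ifs
        · exact mc_nonneg κ S r hD h2 _
        · exact le_refl _
      rw [e1]
      linarith
    · have s1 : ∑ i, (if (Sum.inl (v, i) : Node V ι) ∈ T then tf κ S r (Sum.inl (v, i)) else 0)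
          = 0 := by
        apply Finset.sum_eq_zero
        intro k _
        simp [tf, hP]
      have s1' : ∑ i, (if (Sum.inl (v, i) : Node V ι) ∈ T then mc κ S r (Sum.inl (v, i)) else 0)
          = 0 := by
        apply Finset.sum_eq_zero
        intro k _
        simp [mc, hP]
      have e1 : ∑ k, (if (Sum.inr (v, k) : Node V ι) ∈ T then tf κ S r (Sum.inr (v, k)) else 0)
          = if (Sum.inr (v, r v) : Node V ι) ∈ T then 1 + fv κ S v else 0 := by
        rw [Finset.sum_eq_single (r v)]
        · simp [tf, hF]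
        · intro k _ hk
          simp [tf, hF, hk]
        · intro h
          exact absurd (mem_univ _) h
      have e2 : ∑ k, (if (Sum.inr (v, k) : Node V ι) ∈ T then mc κ S r (Sum.inr (v, k)) else 0)
          = if (Sum.inr (v, r v) : Node V ι) ∈ T then tau κ S v else 0 := by
        rw [Finset.sum_eq_single (r v)]
        · simp [mc, hF]
        · intro k _ hk
          simp [mc, hF, hk]
        · intro h
          exact absurd (mem_univ _) h
      rw [s1, s1', e1, e2]
      split_ifs
      · have h6 := tau_lower κ S hD h2 v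
        have h7 := ic_nonneg S v
        have h8 := dc_nonneg S v
        have : 0 ≤ ((Fintype.card V : ℤ) - 1) * dc S v := mul_nonneg (by linarith) h8
        linarith
      · norm_num

/-- (E3) -/
theorem e3 (hD : ∀ v i, (univ.filter (fun u => u ≠ v ∧ κ v u = i)).card ≤ D)
    (h2 : 2 * D + 2 ≤ Fintype.card V) (hn : 5 ≤ Fintype.card V)
    (T : Finset (Node V ι)) (hT : ∀ x ∈ T, x ∉ S) :
    2 * (∑ x ∈ T, tf κ S r x - Fintype.card V) ≤ ∑ x ∈ T, mc κ S r x := by
  rw [sum_node, sum_node]
  refine le_trans ?_ (Finset.sum_le_sum (fun v _ => e3_vertex κ S r hD h2 hn T hT v))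
  rw [← Finset.mul_sum, Finset.sum_sub_distrib, Finset.sum_const, nsmul_eq_mul, mul_one,
    Finset.card_univ]

end Count

end Pool.H28BE
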