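import Mathlib

set_option autoImplicit false

/-! Definitions for MP_d0d043_co (properly coloured 2-factors and Hamilton paths). -/

namespace Pool.H28BE

/-- `PCL κ l`: for any three consecutive entries `a, b, c` of the list `l` the labels
`κ b a` and `κ b c` are different. For an edge colouring take `κ u v = col s(u, v)`. -/
def PCL {V ι : Type*} (κ : V → V → ι) : List V → Prop
  | a :: b :: c :: l => κ b a ≠ κ b c ∧ PCL κ (b :: c :: l)
  | _ => True

/-- A cycle (at least three distinct vertices, in cyclic order) which is properly coloured. -/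
def PCC {V ι : Type*} (κ : V → V → ι) (l : List V) : Prop :=
  l.Nodup ∧ 3 ≤ l.length ∧ PCL κ (l ++ l.take 2)

/-- A family of disjoint properly coloured cycles covering all vertices. -/
def IsTF {V ι : Type*} (κ : V → V → ι) (F : List (List V)) : Prop :=
  (∀ l ∈ F, PCC κ l) ∧ F.flatten.Nodup ∧ ∀ v, v ∈ F.flatten

end Pool.H28BE
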