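import Pool.Agent.H28.BE.Defs

set_option autoImplicit false

/-! From a 2-regular graph to a list of cycles.

Proof. Strong induction on the number of elements of an H-closed finset `U` (v in U, H.Adj v w
imply w in U): there is F with all members PCC, F.flatten.Nodup and (v in F.flatten iff v in U).
If U is empty take F = []. Otherwise take a longest list l (Nodup, all elements in U, consecutive
elements H-adjacent), l = v1 :: v2 :: ... :: vk. Let w be the neighbour of v1 different from v2.
w is in l (else w :: l is longer), w = vj with j >= 3. If j < k then vj has the three distinct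
neighbours v(j-1), v(j+1), v1, a contradiction. So j = k, the list closes up to a cycle of length
k >= 3, and every vertex of l has its two neighbours in l, so U minus l is H-closed; induction.
PCL holds since two distinct neighbours of v have distinct labels.
(Alternatively use SimpleGraph.IsCycles.exists_cycle_toSubgraph_verts_eq_connectedComponentSupp
of Mathlib/Combinatorics/SimpleGraph/Matching.lean.) -/

namespace Pool.H28BE

private theorem pcl_of_index {V ι : Type*} (κ : V → V → ι) : ∀ m : List V,
    (∀ i (hi : i + 2 < m.length), κ m[i + 1] m[i] ≠ κ m[i + 1] m[i + 2]) → PCL κ m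
  | [], _ => trivial
  | [_], _ => trivial
  | [_, _], _ => trivial
  | a :: b :: c :: l, h => by
    refine ⟨h 0 (by simp), pcl_of_index κ (b :: c :: l) ?_⟩
    intro i hi
    exact h (i + 1) (by simp only [List.length_cons] at hi ⊢; omega)

private theorem two_nb {V ι : Type*} {κ : V → V → ι} {H : SimpleGraph V}
    (h : ∀ v, ∃ a b, a ≠ b ∧ κ v a ≠ κ v b ∧ ∀ w, H.Adj v w ↔ (w = a ∨ w = b))
    {v x y : V} (hx : H.Adj v x) (hy : H.Adj v y) (hxy : x ≠ y) :
    κ v x ≠ κ v y ∧ ∀ w, H.Adj v w → w = x ∨ w = y := by
  obtain ⟨a, b, hab, hk, hw⟩ := h v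
  rcases (hw x).1 hx with rfl | rfl
  · rcases (hw y).1 hy with rfl | rfl
    · exact absurd rfl hxy
    · exact ⟨hk, fun w hw' => (hw w).1 hw'⟩
  · rcases (hw y).1 hy with rfl | rfl
    · exact ⟨hk.symm, fun w hw' => ((hw w).1 hw').symm⟩
    · exact absurd rfl hxy

private theorem cyc_step {V ι : Type*} [Fintype V] [DecidableEq V] (κ : V → V → ι)
    (H : SimpleGraph V)
    (h : ∀ v, ∃ a b, a ≠ b ∧ κ v a ≠ κ v b ∧ ∀ w, H.Adj v w ↔ (w = a ∨ w = b))
    (U : Finset V) (hU : ∀ v ∈ U, ∀ w, H.Adj v w → w ∈ U) (hne : U.Nonempty) :
    ∃ l : List V, PCC κ l ∧ (∀ x ∈ l, x ∈ U) ∧ ∀ x ∈ l, ∀ y, H.Adj x y → y ∈ l := by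
  classical
  -- a longest path
  let P : List V → Prop := fun l => l.Nodup ∧ (∀ x ∈ l, x ∈ U) ∧ l.IsChain H.Adj
  obtain ⟨v0, hv0⟩ := hne
  have hP0 : P [v0] := ⟨List.nodup_singleton _, by simpa using hv0, List.isChain_singleton _⟩
  have hbd : ∀ l, P l → l.length ≤ Fintype.card V := fun l hl => hl.1.length_le_card
  obtain ⟨N, ⟨l, hl, hlN⟩, hmax⟩ : ∃ N, (∃ l, P l ∧ l.length = N) ∧
      ∀ l, P l → l.length ≤ N := by
    let S : Set ℕ := {N | ∃ l, P l ∧ l.length = N}
    have hS : S.Nonempty := ⟨1, [v0], hP0, rfl⟩
    have hSb : BddAbove S := ⟨Fintype.card V, by rintro N ⟨l, hl, rfl⟩; exact hbd l hl⟩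
    exact ⟨sSup S, Nat.sSup_mem hS hSb, fun l hl => le_csSup hSb ⟨l, hl, rfl⟩⟩
  have hpos : 0 < l.length := by
    have := hmax [v0] hP0
    simp only [List.length_singleton] at this
    omega
  obtain ⟨v1, t1, rfl⟩ := List.exists_cons_of_length_pos hpos
  -- extension on the left is impossible
  have hext : ∀ w, H.Adj v1 w → w ∈ v1 :: t1 := by
    intro w hw
    by_contra hwn
    have hPw : P (w :: v1 :: t1) := by
      refine ⟨List.nodup_cons.2 ⟨hwn, hl.1⟩, ?_, ?_⟩
      · intro x hx
        rcases List.mem_cons.1 hx with rfl | hx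
        · exact hU v1 (hl.2.1 v1 (by simp)) _ hw
        · exact hl.2.1 x hx
      · exact List.isChain_cons_cons.2 ⟨hw.symm, hl.2.2⟩
    have := hmax _ hPw
    simp only [List.length_cons] at this hlN
    omega
  obtain ⟨a, b, hab, -, hnb⟩ := h v1
  have hwex : ∀ v2 : V, ∃ w, H.Adj v1 w ∧ w ≠ v2 := by
    intro v2
    by_cases ha : a = v2
    · exact ⟨b, (hnb b).2 (Or.inr rfl), fun hb => hab (ha.trans hb.symm)⟩
    · exact ⟨a, (hnb a).2 (Or.inl rfl), ha⟩
  cases t1 with
  | nil =>
    exfalso
    obtain ⟨w, hw, -⟩ := hwex v1
    have := hext w hw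
    rw [List.mem_singleton] at this
    exact H.ne_of_adj hw this.symm
  | cons v2 t =>
    obtain ⟨w, hw, hwv2⟩ := hwex v2
    have hwt : w ∈ t := by
      have h1 := hext w hw
      rcases List.mem_cons.1 h1 with h2 | h2
      · exact absurd h2.symm (H.ne_of_adj hw)
      · rcases List.mem_cons.1 h2 with h3 | h3
        · exact absurd h3 hwv2
        · exact h3
    obtain ⟨s1, s2, rfl⟩ := List.append_of_mem hwt
    set L : List V := v1 :: v2 :: (s1 ++ w :: s2) with hL
    have hLlen : L.length = s1.length + s2.length + 3 := by
      simp [hL]; omega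
    have hchain : ∀ i (hi : i + 1 < L.length), H.Adj L[i] L[i + 1] := by
      intro i hi
      exact List.isChain_iff_getElem.1 hl.2.2 i hi
    have hinj : ∀ i j (hi : i < L.length) (hj : j < L.length), L[i] = L[j] → i = j := by
      intro i j hi hj hij
      exact (List.Nodup.getElem_inj_iff hl.1).1 hij
    have hk : s1.length + 2 < L.length := by omega
    have hLw : L[s1.length + 2] = w := by
      simp [hL]
    have hL0 : L[0]'(by omega) = v1 := rfl
    -- the list ends at w
    have hs2 : s2.length = 0 := by
      by_contra hs2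
      have e1 : H.Adj w (L[s1.length + 1]'(by omega)) := by
        have := hchain (s1.length + 1) (by omega)
        rw [hLw] at this
        exact this.symm
      have e2 : H.Adj w (L[s1.length + 3]'(by omega)) := by
        have := hchain (s1.length + 2) (by omega)
        rw [hLw] at this
        exact this
      have e3 : H.Adj w (L[0]'(by omega)) := by
        rw [hL0]; exact hw.symm
      have hne12 : L[s1.length + 1]'(by omega) ≠ L[s1.length + 3]'(by omega) := by
        intro he
        have := hinj _ _ _ _ he
        omega
      rcases (two_nb h e1 e2 hne12).2 _ e3 with h4 | h4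
      · have := hinj _ _ _ _ h4
        omega
      · have := hinj _ _ _ _ h4
        omega
    have hn : L.length = s1.length + 3 := by omega
    have hn3 : 3 ≤ L.length := by omega
    -- cyclic indexing
    have hmod : ∀ i, i % L.length < L.length := fun i => Nat.mod_lt _ (by omega)
    let f : ℕ → V := fun i => L[i % L.length]'(hmod i)
    have hfadj : ∀ i, H.Adj (f i) (f (i + 1)) := by
      intro i
      have hi := hmod i
      by_cases hlast : i % L.length + 1 < L.length
      · have h1 : (i + 1) % L.length = i % L.length + 1 := by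
          rw [Nat.add_mod, Nat.mod_eq_of_lt (show 1 < L.length by omega),
            Nat.mod_eq_of_lt hlast]
        have h2 := hchain (i % L.length) hlast
        simp only [f, h1]
        exact h2
      · have h0 : i % L.length = s1.length + 2 := by omega
        have h1 : (i + 1) % L.length = 0 := by
          rw [Nat.add_mod, Nat.mod_eq_of_lt (show 1 < L.length by omega)]
          have : i % L.length + 1 = L.length := by omega
          rw [this, Nat.mod_self]
        simp only [f, h0, h1]
        rw [hLw, hL0]
        exact hw.symm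
    have hfne : ∀ i, f i ≠ f (i + 2) := by
      intro i he
      have h1 := hinj _ _ (hmod i) (hmod (i + 2)) he
      have h2 : i % L.length < L.length := hmod i
      rw [Nat.add_mod, Nat.mod_eq_of_lt (show 2 < L.length by omega)] at h1
      by_cases h3 : i % L.length + 2 < L.length
      · rw [Nat.mod_eq_of_lt h3] at h1
        omega
      · have h4 : (i % L.length + 2) % L.length = i % L.length + 2 - L.length := by
          rw [Nat.mod_eq_sub_mod (by omega), Nat.mod_eq_of_lt (by omega)]
        omega
    refine ⟨L, ⟨hl.1, hn3, ?_⟩, hl.2.1, ?_⟩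
    · apply pcl_of_index
      have hlen : (L ++ L.take 2).length = L.length + 2 := by
        rw [List.length_append, List.length_take]
        omega
      have hget : ∀ i (hi : i < (L ++ L.take 2).length), (L ++ L.take 2)[i] = f i := by
        intro i hi
        by_cases hi2 : i < L.length
        · rw [List.getElem_append_left hi2]
          simp only [f, Nat.mod_eq_of_lt hi2]
        · rw [List.getElem_append_right (by omega), List.getElem_take]
          have h5 : i % L.length = i - L.length := by
            rw [Nat.mod_eq_sub_mod (by omega), Nat.mod_eq_of_lt (by omega)]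
          simp only [f, h5]
      intro i hi
      rw [hget, hget, hget]
      exact (two_nb h (hfadj i).symm (hfadj (i + 1)) (hfne i)).1
    · intro x hx y hxy
      obtain ⟨i, hi, rfl⟩ := List.getElem_of_mem hx
      have hfi : f (i + L.length) = L[i] := by
        simp only [f, Nat.add_mod_right, Nat.mod_eq_of_lt hi]
      obtain ⟨j, hj⟩ : ∃ j, i + L.length = j + 1 := ⟨i + L.length - 1, by omega⟩
      rw [hj] at hfi
      rw [← hfi] at hxy
      rcases (two_nb h (hfadj j).symm (hfadj (j + 1)) (hfne j)).2 _ hxy with h6 | h6
      · rw [h6]; exact List.getElem_mem _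
      · rw [h6]; exact List.getElem_mem _

theorem cycles_of_regular {V ι : Type*} [Fintype V] [DecidableEq V] (κ : V → V → ι)
    (H : SimpleGraph V)
    (h : ∀ v, ∃ a b, a ≠ b ∧ κ v a ≠ κ v b ∧ ∀ w, H.Adj v w ↔ (w = a ∨ w = b)) :
    ∃ F : List (List V), IsTF κ F := by
  classical
  have key : ∀ (n : ℕ) (U : Finset V), U.card ≤ n → (∀ v ∈ U, ∀ w, H.Adj v w → w ∈ U) →
      ∃ F : List (List V), (∀ l ∈ F, PCC κ l) ∧ F.flatten.Nodup ∧
        ∀ v, v ∈ F.flatten ↔ v ∈ U := by
    intro n
    induction n with
    | zero =>
      intro U hU _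
      have : U = ∅ := Finset.card_eq_zero.1 (by omega)
      subst this
      exact ⟨[], by simp, by simp, by simp⟩
    | succ n ih =>
      intro U hU hcl
      rcases U.eq_empty_or_nonempty with rfl | hne
      · exact ⟨[], by simp, by simp, by simp⟩
      · obtain ⟨l, hl, hlU, hlc⟩ := cyc_step κ H h U hcl hne
        have hlpos : 0 < l.toFinset.card := by
          rw [List.toFinset_card_of_nodup hl.1]
          have := hl.2.1
          omega
        have hsub : l.toFinset ⊆ U := fun x hx => hlU x (List.mem_toFinset.1 hx)
        have hcard : (U \ l.toFinset).card ≤ n := by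
          rw [Finset.card_sdiff_of_subset hsub]
          omega
        obtain ⟨F, hF1, hF2, hF3⟩ := ih (U \ l.toFinset) hcard (by
          intro v hv w hvw
          rw [Finset.mem_sdiff, List.mem_toFinset] at hv ⊢
          exact ⟨hcl v hv.1 w hvw, fun hw => hv.2 (hlc w hw v hvw.symm)⟩)
        refine ⟨l :: F, ?_, ?_, ?_⟩
        · intro m hm
          rcases List.mem_cons.1 hm with rfl | hm
          · exact hl
          · exact hF1 m hm
        · rw [List.flatten_cons]
          refine List.Nodup.append hl.1 hF2 ?_
          intro x hx hx'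
          have := (hF3 x).1 hx'
          rw [Finset.mem_sdiff, List.mem_toFinset] at this
          exact this.2 hx
        · intro v
          rw [List.flatten_cons, List.mem_append, hF3, Finset.mem_sdiff, List.mem_toFinset]
          constructor
          · rintro (hv | hv)
            · exact hlU v hv
            · exact hv.1
          · intro hv
            by_cases hvl : v ∈ l
            · exact Or.inl hvl
            · exact Or.inr ⟨hv, hvl⟩
  obtain ⟨F, hF1, hF2, hF3⟩ := key (Finset.univ : Finset V).card Finset.univ le_rfl
    (fun _ _ w _ => Finset.mem_univ w)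
  exact ⟨F, hF1, hF2, fun v => (hF3 v).2 (Finset.mem_univ v)⟩

end Pool.H28BE
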