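import Pool.Agent.H28.BE.Regular

set_option autoImplicit false

/-! The exact compatible 2-factor theorem in the form of the hand-in (labels in `ℕ`, all `n ≥ 3`). -/

namespace Pool.H28BE

open Finset

theorem local_large (n : ℕ) (hn : 5 ≤ n) (κ₀ : Fin n → Fin n → ℕ)
    (h : ∀ (v : Fin n) (c : ℕ),
      (Finset.univ.filter (fun w : Fin n => w ≠ v ∧ κ₀ v w = c)).card + 1 ≤ n / 2) :
    ∃ H : SimpleGraph (Fin n), ∀ v, ∃ a b, a ≠ b ∧ κ₀ v a ≠ κ₀ v b ∧
      ∀ w, H.Adj v w ↔ (w = a ∨ w = b) := by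
  classical
  let C : Finset ℕ := univ.biUnion fun u => univ.image (κ₀ u)
  let κ : Fin n → Fin n → C := fun u v =>
    ⟨κ₀ u v, mem_biUnion.2 ⟨u, mem_univ _, mem_image_of_mem _ (mem_univ _)⟩⟩
  have hD : ∀ v i, (univ.filter (fun u => u ≠ v ∧ κ v u = i)).card ≤ n / 2 - 1 := by
    intro v i
    have h1 := h v i.1
    have h3 : (univ.filter (fun u => u ≠ v ∧ κ v u = i)).card
        ≤ (univ.filter (fun w : Fin n => w ≠ v ∧ κ₀ v w = i.1)).card := by
      apply Finset.card_le_card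
      intro u hu
      rw [mem_filter] at hu ⊢
      refine ⟨mem_univ _, hu.2.1, ?_⟩
      exact congrArg Subtype.val hu.2.2
    omega
  obtain ⟨H, hH⟩ := exists_regular κ hD (by rw [Fintype.card_fin]; omega)
    (by rw [Fintype.card_fin]; exact hn)
  refine ⟨H, fun v => ?_⟩
  obtain ⟨a, b, hab, hκ, hadj⟩ := hH v
  exact ⟨a, b, hab, fun he => hκ (Subtype.ext he), hadj⟩

theorem local_four (κ : Fin 4 → Fin 4 → ℕ)
    (h : ∀ (v : Fin 4) (c : ℕ),
      (Finset.univ.filter (fun w : Fin 4 => w ≠ v ∧ κ v w = c)).card + 1 ≤ 4 / 2) :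
    ∃ H : SimpleGraph (Fin 4), ∀ v, ∃ a b, a ≠ b ∧ κ v a ≠ κ v b ∧
      ∀ w, H.Adj v w ↔ (w = a ∨ w = b) := by
  have key : ∀ v a b : Fin 4, a ≠ v → b ≠ v → a ≠ b → κ v a ≠ κ v b := by
    intro v a b ha hb hab he
    have h1 := h v (κ v b)
    have h2 : 2 ≤ (Finset.univ.filter
        (fun w : Fin 4 => w ≠ v ∧ κ v w = κ v b)).card := by
      have : ({a, b} : Finset (Fin 4)) ⊆ Finset.univ.filter
          (fun w : Fin 4 => w ≠ v ∧ κ v w = κ v b) := by
        intro x hx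
        rw [mem_insert, mem_singleton] at hx
        rw [mem_filter]
        rcases hx with rfl | rfl
        · exact ⟨mem_univ _, ha, he⟩
        · exact ⟨mem_univ _, hb, rfl⟩
      calc 2 = ({a, b} : Finset (Fin 4)).card := (Finset.card_pair hab).symm
        _ ≤ _ := Finset.card_le_card this
    omega
  let H : SimpleGraph (Fin 4) :=
    { Adj := fun v w => w = v + 1 ∨ v = w + 1
      symm := ⟨fun v w hvw => hvw.symm⟩
      loopless := ⟨fun v hv => by revert hv; revert v; decide⟩ }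
  refine ⟨H, fun v => ⟨v + 1, v - 1, ?_, ?_, ?_⟩⟩
  · revert v; decide
  · apply key
    · revert v; decide
    · revert v; decide
    · revert v; decide
  · intro w
    show (w = v + 1 ∨ v = w + 1) ↔ _
    revert v w; decide

theorem local_all (n : ℕ) (hn : 3 ≤ n) (κ : Fin n → Fin n → ℕ)
    (h : ∀ (v : Fin n) (c : ℕ),
      (Finset.univ.filter (fun w : Fin n => w ≠ v ∧ κ v w = c)).card + 1 ≤ n / 2) :
    ∃ H : SimpleGraph (Fin n), ∀ v, ∃ a b, a ≠ b ∧ κ v a ≠ κ v b ∧
      ∀ w, H.Adj v w ↔ (w = a ∨ w = b) := by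
  rcases Nat.lt_or_ge n 5 with hlt | hge
  · interval_cases n
    · have := h 0 (κ 0 1)
      have h1 : 0 < (Finset.univ.filter (fun w : Fin 3 => w ≠ 0 ∧ κ 0 w = κ 0 1)).card := by
        rw [Finset.card_pos]
        exact ⟨1, by simp⟩
      omega
    · exact local_four κ h
  · exact local_large n hge κ h

end Pool.H28BE
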