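import Pool.Agent.H28.BE.Defs

set_option autoImplicit false

/-! Properly coloured 2-factor implies properly coloured Hamilton path (colourings, i.e. the
symmetric label function `fun u v => c s(u, v)`).

Proof. Call x in X *Y-singular* (X, Y two cycles of the family) if for some cyclic neighbour x' of x
in X we have c s(x, y) = c s(x, x') for all y in Y.
(1) Pair lemma. If x in X is Y-singular and y0 in Y is X-singular then X and Y merge into one
properly coloured cycle on the same vertices: k := c(x x') = c(x y0) = c(y0 y') where x', y' are the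
cyclic neighbours. Rotating / reversing the lists, X = x' :: ... ++ [x], Y = y' :: ... ++ [y0]; the
new cycle is X ++ Y (the edges x y' and y0 x' have colour k as well, and the other cycle edges at
x, x', y0, y' do not have colour k).
(2) Take F with the least number of cycles. By (1) for any two members X, Y of F: no vertex of X is
Y-singular or no vertex of Y is X-singular. Write X -> Y for `no vertex of X is Y-singular`.
(3) Insertion sort: a permutation F' = [C1, ..., Ct] of F with Ci -> C(i+1) for all i.
(4) Greedy: there is a PC path through exactly the vertices of C1, ..., Ci whose last two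
vertices z', z are cyclic neighbours in Ci. Step: z is not C(i+1)-singular, so some y in C(i+1) has
c(z y) /= c(z z'); at least one of the two cycle edges y y1, y y2 at y has colour /= c(z y), walk
around C(i+1) starting with that edge; the walk ends with a cycle edge. -/

namespace Pool.H28BE

variable {V ι : Type*}

private theorem snoc_or {α : Type*} (l : List α) : l = [] ∨ ∃ L a, l = L ++ [a] := by
  rcases List.eq_nil_or_concat l with h | ⟨L, a, h⟩
  · exact Or.inl h
  · exact Or.inr ⟨L, a, by rw [h, List.concat_eq_append]⟩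

private theorem pcl_cons (κ : V → V → ι) (x y : V) (l : List V) :
    PCL κ (x :: y :: l) ↔ (∀ z, l.head? = some z → κ y x ≠ κ y z) ∧ PCL κ (y :: l) := by
  cases l with
  | nil => simp [PCL]
  | cons z l => simp [PCL]

private theorem pcl_append (κ : V → V → ι) (a b : V) (M : List V) : ∀ L : List V,
    PCL κ (L ++ a :: b :: M) ↔ PCL κ (L ++ [a, b]) ∧ PCL κ (a :: b :: M) := by
  intro L
  induction L with
  | nil => simp [PCL]
  | cons x L ih =>
    cases L with
    | nil => simp [PCL]
    | cons y L =>
      have h1 : (x :: y :: L) ++ a :: b :: M = x :: y :: (L ++ a :: b :: M) := rfl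
      have h2 : (x :: y :: L) ++ [a, b] = x :: y :: (L ++ [a, b]) := rfl
      have h3 : (L ++ a :: b :: M).head? = (L ++ [a, b]).head? := by cases L <;> simp
      rw [h1, h2, pcl_cons, pcl_cons, h3]
      have ih' : PCL κ (y :: (L ++ a :: b :: M)) ↔ PCL κ (y :: (L ++ [a, b])) ∧
          PCL κ (a :: b :: M) := ih
      rw [ih', and_assoc]

private theorem pcl_reverse (κ : V → V → ι) : ∀ l : List V, PCL κ l → PCL κ l.reverse := by
  intro l
  induction l with
  | nil => simp
  | cons a l ih =>
    intro h
    match l, h, ih with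
    | [], _, _ => simp [PCL]
    | [b], _, _ => simp [PCL]
    | b :: c :: l, h, ih =>
      have h' : κ b a ≠ κ b c ∧ PCL κ (b :: c :: l) := h
      have h2 := ih h'.2
      have e : (a :: b :: c :: l).reverse = l.reverse ++ c :: b :: [a] := by simp
      have e2 : (b :: c :: l).reverse = l.reverse ++ [c, b] := by simp
      rw [e, pcl_append]
      rw [e2] at h2
      exact ⟨h2, fun q => h'.1 q.symm, by simp [PCL]⟩

/-- rotation by one step -/
private theorem pcc_rot (κ : V → V → ι) (a : V) (l : List V) (h : PCC κ (a :: l)) :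
    PCC κ (l ++ [a]) := by
  obtain ⟨h1, h2, h3⟩ := h
  match l, h1, h2, h3 with
  | [], _, h2, _ => simp at h2
  | [b], _, h2, _ => simp at h2
  | b :: c :: l, h1, h2, h3 =>
    refine ⟨?_, by simpa using h2, ?_⟩
    · have := (List.perm_append_comm (l₁ := [a]) (l₂ := b :: c :: l)).nodup_iff.1
        (by simpa using h1)
      simpa using this
    · have h4 : PCL κ (a :: b :: (c :: l ++ [a, b])) := by simpa using h3
      have h5 : κ b a ≠ κ b c ∧ PCL κ (b :: c :: (l ++ [a, b])) := by simpa [PCL] using h4
      have e : (b :: c :: l ++ [a]) ++ (b :: c :: l ++ [a]).take 2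
          = (b :: c :: l) ++ a :: b :: [c] := by simp
      rw [e, pcl_append]
      exact ⟨h5.2, h5.1, by simp [PCL]⟩

private theorem pcc_rot_append (κ : V → V → ι) : ∀ (L M : List V), PCC κ (L ++ M) →
    PCC κ (M ++ L) := by
  intro L
  induction L with
  | nil => intro M h; simpa using h
  | cons a L ih =>
    intro M h
    have h1 := pcc_rot κ a (L ++ M) h
    rw [List.append_assoc] at h1
    have h2 := ih (M ++ [a]) h1
    simpa using h2

private theorem pcc_reverse (κ : V → V → ι) (l : List V) (h : PCC κ l) : PCC κ l.reverse := by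
  obtain ⟨h1, h2, h3⟩ := h
  match l, h1, h2, h3 with
  | [], _, h2, _ => simp at h2
  | [b], _, h2, _ => simp at h2
  | a :: b :: l, h1, h2, h3 =>
    have h4 : PCL κ (a :: b :: (l ++ [a, b])) := by simpa using h3
    have h5 := pcl_reverse κ _ h4
    have e : (a :: b :: (l ++ [a, b])).reverse = (b :: a :: l.reverse) ++ [b, a] := by simp
    rw [e] at h5
    have h6 : PCC κ ([b, a] ++ l.reverse) := by
      refine ⟨?_, by simpa using h2, by simpa using h5⟩
      have p : ([b, a] ++ l.reverse).Perm (a :: b :: l) := by
        refine (List.Perm.swap a b l.reverse).trans ?_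
        exact ((List.reverse_perm l).cons b).cons a
      exact p.nodup_iff.2 h1
    have h7 := pcc_rot_append κ _ _ h6
    simpa using h7

/-- walk around a cycle from a given vertex with a first edge of label other than `k` -/
private theorem start (κ : V → V → ι) (D : List V) (hD : PCC κ D) (y : V) (hy : y ∈ D) (k : ι) :
    ∃ y1 m, PCC κ (y :: y1 :: m) ∧ (y :: y1 :: m).Perm D ∧ κ y y1 ≠ k := by
  obtain ⟨A, B, rfl⟩ := List.append_of_mem hy
  have h1 := pcc_rot_append κ A (y :: B) hD
  have p1 : ((y :: B) ++ A).Perm (A ++ y :: B) := List.perm_append_comm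
  obtain ⟨C, hC⟩ : ∃ C, C = B ++ A := ⟨_, rfl⟩
  have e1 : (y :: B) ++ A = y :: C := by rw [hC]; rfl
  rw [e1] at h1 p1
  obtain ⟨n1, n2, n3⟩ := h1
  match C, n1, n2, n3, p1 with
  | [], _, n2, _, _ => simp at n2
  | y1 :: C, n1, n2, n3, p1 =>
    rcases snoc_or C with rfl | ⟨m, y2, rfl⟩
    · simp at n2
    · by_cases hk : κ y y1 = k
      · -- use the reverse
        have hc : PCC κ (y :: y1 :: (m ++ [y2])) := ⟨n1, n2, n3⟩
        have hr := pcc_reverse κ _ hc
        have e2 : (y :: y1 :: (m ++ [y2])).reverse = (y2 :: (m.reverse ++ [y1])) ++ [y] := by simp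
        rw [e2] at hr
        have hr2 := pcc_rot_append κ _ _ hr
        refine ⟨y2, m.reverse ++ [y1], hr2, ?_, ?_⟩
        · refine List.Perm.trans ?_ p1
          have q : (y :: y2 :: (m.reverse ++ [y1])).Perm (y :: y1 :: (m ++ [y2])).reverse := by
            rw [e2]
            exact List.perm_append_comm (l₁ := [y])
          exact q.trans (List.reverse_perm _)
        · have e3 : (y :: y1 :: (m ++ [y2])) ++ (y :: y1 :: (m ++ [y2])).take 2
              = (y :: y1 :: m) ++ y2 :: y :: [y1] := by simp
          rw [e3, pcl_append] at n3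
          have n4 : κ y y2 ≠ κ y y1 := n3.2.1
          rw [← hk]
          exact n4
      · exact ⟨y1, m ++ [y2], ⟨n1, n2, n3⟩, p1, hk⟩

/-- `x'` is a neighbour of `x` on some PC cycle with the vertex set of `C` -/
private def Nb (κ : V → V → ι) (C : List V) (x x' : V) : Prop :=
  ∃ m, PCC κ (x' :: (m ++ [x])) ∧ (x' :: (m ++ [x])).Perm C

private def Arrow (κ : V → V → ι) (C D : List V) : Prop :=
  ∀ x x', Nb κ C x x' → ∃ y ∈ D, κ x y ≠ κ x x'

private theorem merge (κ : V → V → ι) (hs : ∀ u v, κ u v = κ v u) (C D : List V)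
    (hdis : ∀ v ∈ C, v ∉ D) (h1 : ¬ Arrow κ C D) (h2 : ¬ Arrow κ D C) :
    ∃ E, PCC κ E ∧ E.Perm (C ++ D) := by
  unfold Arrow at h1 h2
  push Not at h1 h2
  obtain ⟨x, x', ⟨m, hm, pm⟩, hx⟩ := h1
  obtain ⟨y, y', ⟨m', hm', pm'⟩, hy⟩ := h2
  have xC : x ∈ C := pm.subset (by simp)
  have x'C : x' ∈ C := pm.subset (by simp)
  have yD : y ∈ D := pm'.subset (by simp)
  have y'D : y' ∈ D := pm'.subset (by simp)
  refine ⟨(x' :: (m ++ [x])) ++ (y' :: (m' ++ [y])), ⟨?_, ?_, ?_⟩, pm.append pm'⟩
  · rw [List.nodup_append]
    refine ⟨hm.1, hm'.1, ?_⟩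
    intro a ha b hb hab
    subst hab
    exact hdis a (pm.subset ha) (pm'.subset hb)
  · simp only [List.length_append, List.length_cons, List.length_nil]
    omega
  · -- all labels of the four special edges agree
    have a1 : κ x y' = κ x x' := hx y' y'D
    have a2 : κ x y = κ x x' := hx y yD
    have a3 : κ y x = κ y y' := hy x xC
    have a4 : κ y x' = κ y y' := hy x' x'C
    obtain ⟨n1, n2, n3⟩ := hm
    obtain ⟨n1', n2', n3'⟩ := hm'
    -- decompose `m` and `m'`
    match m, n2, n3 with
    | [], n2, _ => simp at n2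
    | p :: m, n2, n3 =>
      match m', n2', n3' with
      | [], n2', _ => simp at n2'
      | q :: m', n2', n3' =>
        -- `X = x' p ... x`, `Y = y' q ... y`
        have b0 : PCL κ ((x' :: p :: m) ++ x :: x' :: [p]) := by simpa using n3
        have c0 : PCL κ ((y' :: q :: m') ++ y :: y' :: [q]) := by simpa using n3'
        rw [pcl_append] at b0 c0
        obtain ⟨b1, b2⟩ := b0
        obtain ⟨c1, c2⟩ := c0
        have b3 : κ x' x ≠ κ x' p := b2.1
        have c3 : κ y' y ≠ κ y' q := c2.1
        have e1 : (x' :: (p :: m ++ [x])) ++ (y' :: (q :: m' ++ [y])) ++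
            ((x' :: (p :: m ++ [x])) ++ (y' :: (q :: m' ++ [y]))).take 2
            = (x' :: p :: m) ++ x :: y' :: (q :: m' ++ y :: x' :: [p]) := by simp
        rw [e1, pcl_append]
        refine ⟨?_, ?_⟩
        · -- `x' p ... x y'` from `x' p ... x x'`
          rcases snoc_or (x' :: p :: m) with h | ⟨L, r, hL⟩
          · simp at h
          · rw [hL] at b1 ⊢
            have b4 : PCL κ (L ++ r :: x :: [x']) := by simpa using b1
            rw [pcl_append] at b4
            have : PCL κ (L ++ r :: x :: [y']) := by
              rw [pcl_append]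
              refine ⟨b4.1, ?_, by simp [PCL]⟩
              rw [a1]
              exact b4.2.1
            simpa using this
        · -- `x y' q ... y x' p`
          have e2 : x :: y' :: (q :: m' ++ y :: x' :: [p])
              = (x :: y' :: q :: m') ++ y :: x' :: [p] := by simp
          rw [e2, pcl_append]
          refine ⟨?_, ?_, by simp [PCL]⟩
          · -- `x y' q ... y x'`
            have c5 : PCL κ ((y' :: q :: m') ++ [y, x']) := by
              rcases snoc_or (y' :: q :: m') with h | ⟨L, r, hL⟩
              · simp at h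
              · rw [hL] at c1 ⊢
                have c4 : PCL κ (L ++ r :: y :: [y']) := by simpa using c1
                rw [pcl_append] at c4
                have : PCL κ (L ++ r :: y :: [x']) := by
                  rw [pcl_append]
                  refine ⟨c4.1, ?_, by simp [PCL]⟩
                  rw [a4]
                  exact c4.2.1
                simpa using this
            have c6 : κ y' x ≠ κ y' q := by
              rw [hs y' x, a1, ← a2, hs x y, a3, hs y y']
              exact c3
            exact ⟨c6, c5⟩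
          · have : κ x' y = κ x' x := by
              rw [hs x' y, a4, ← a3, hs y x, a2, hs x x']
            rw [this]
            exact b3

private theorem insert_chain {α : Type*} (R : α → α → Prop) (a : α) : ∀ l : List α,
    l.IsChain R → (∀ b ∈ l, R a b ∨ R b a) →
    ∃ l' : List α, l'.Perm (a :: l) ∧ l'.IsChain R ∧
      (l'.head? = some a ∨ l'.head? = l.head?) := by
  intro l
  induction l with
  | nil => intro _ _; exact ⟨[a], List.Perm.refl _, List.isChain_singleton _, Or.inl rfl⟩
  | cons b l ih =>
    intro hc ht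
    by_cases hab : R a b
    · exact ⟨a :: b :: l, List.Perm.refl _, List.isChain_cons_cons.2 ⟨hab, hc⟩, Or.inl rfl⟩
    · have hba : R b a := (ht b (by simp)).resolve_left hab
      obtain ⟨l', h1, h2, h3⟩ := ih hc.tail (fun c hcl => ht c (by simp [hcl]))
      refine ⟨b :: l', ?_, ?_, Or.inr rfl⟩
      · exact (h1.cons b).trans (List.Perm.swap a b l)
      · rw [List.isChain_cons]
        refine ⟨?_, h2⟩
        intro y hy
        rcases h3 with h3 | h3
        · rw [h3] at hy
          simp at hy
          rw [← hy]; exact hba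
        · rw [h3] at hy
          exact (List.isChain_cons.1 hc).1 y hy

private theorem sort_chain {α : Type*} (R : α → α → Prop) : ∀ l : List α,
    (∀ a b L, l.Perm (a :: b :: L) → R a b ∨ R b a) →
    ∃ l' : List α, l'.Perm l ∧ l'.IsChain R := by
  intro l
  induction l with
  | nil => intro _; exact ⟨[], List.Perm.refl _, List.isChain_nil⟩
  | cons a l ih =>
    intro h
    obtain ⟨l', h1, h2⟩ := ih (fun x y L hp => h x y (L ++ [a]) (by
      refine (hp.cons a).trans ?_
      exact (List.perm_append_comm (l₁ := [a]) (l₂ := x :: y :: L))))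
    obtain ⟨l'', h3, h4, _⟩ := insert_chain R a l' h2 (by
      intro b hb
      obtain ⟨A, B, hAB⟩ := List.append_of_mem (h1.subset hb)
      apply h a b (A ++ B)
      rw [hAB]
      exact (List.perm_middle).cons a)
    exact ⟨l'', h3.trans (h1.cons a), h4⟩

private theorem greedy (κ : V → V → ι) : ∀ (F : List (List V))
    (C Q : List V) (z' z : V), (∀ D ∈ F, PCC κ D) → (C :: F).IsChain (Arrow κ) →
    Nb κ C z z' → PCL κ (Q ++ [z', z]) →
    ∃ P, P.Perm ((Q ++ [z', z]) ++ F.flatten) ∧ PCL κ P := by
  intro F
  induction F with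
  | nil =>
    intro C Q z' z _ _ _ h
    exact ⟨Q ++ [z', z], by simp, h⟩
  | cons D F ih =>
    intro C Q z' z hF hch hz hQ
    rw [List.isChain_cons_cons] at hch
    obtain ⟨y, hy, hne⟩ := hch.1 z z' hz
    obtain ⟨y1, m, h1, h2, h3⟩ := start κ D (hF D (by simp)) y hy (κ y z)
    -- last two entries of `y :: y1 :: m`
    obtain ⟨L, w', w, hL⟩ : ∃ L w' w, y :: y1 :: m = L ++ [w', w] := by
      rcases snoc_or (y :: y1 :: m) with h | ⟨L, w, hL⟩
      · simp at h
      · rcases snoc_or L with h | ⟨L', w', hL'⟩
        · rw [h] at hL; simp at hL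
        · exact ⟨L', w', w, by rw [hL, hL']; simp⟩
    have hw : Nb κ D w w' := by
      have r1 := pcc_reverse κ _ h1
      have e : (y :: y1 :: m).reverse = w :: (w' :: L.reverse) := by rw [hL]; simp
      rw [e] at r1
      have r2 := pcc_rot κ _ _ r1
      refine ⟨L.reverse, by simpa using r2, ?_⟩
      refine List.Perm.trans ?_ h2
      have q : (w' :: (L.reverse ++ [w])).Perm (y :: y1 :: m).reverse := by
        rw [e]
        exact (List.perm_append_comm (l₁ := w' :: L.reverse) (l₂ := [w]))
      exact q.trans (List.reverse_perm _)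
    obtain ⟨n1, n2, n3⟩ := h1
    have hpcl : PCL κ (y :: y1 :: m) := by
      have e : (y :: y1 :: m) ++ (y :: y1 :: m).take 2 = (y :: y1 :: m) ++ [y, y1] := by simp
      rw [e, hL, List.append_assoc] at n3
      have e' : L ++ ([w', w] ++ [y, y1]) = L ++ w' :: w :: [y, y1] := by simp
      rw [e', pcl_append] at n3
      rw [hL]; exact n3.1
    have hnew : PCL κ ((Q ++ [z', z]) ++ (y :: y1 :: m)) := by
      have e : (Q ++ [z', z]) ++ (y :: y1 :: m) = Q ++ z' :: z :: (y :: y1 :: m) := by simp
      rw [e, pcl_append]
      refine ⟨hQ, ?_⟩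
      refine ⟨fun q => hne q.symm, fun q => h3 q.symm, hpcl⟩
    have hnew' : PCL κ (((Q ++ [z', z]) ++ L) ++ [w', w]) := by
      rw [List.append_assoc, ← hL]; exact hnew
    obtain ⟨P, hP1, hP2⟩ := ih D ((Q ++ [z', z]) ++ L) w' w
      (fun E hE => hF E (by simp [hE])) hch.2 hw hnew'
    refine ⟨P, hP1.trans ?_, hP2⟩
    rw [List.append_assoc (Q ++ [z', z]) L [w', w], ← hL, List.flatten_cons,
      List.append_assoc (Q ++ [z', z])]
    exact List.Perm.append_left _ (List.Perm.append_right _ h2)

theorem path_of_twoFactor {V ι : Type*} [Fintype V] [DecidableEq V] (c : Sym2 V → ι)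
    (F : List (List V)) (hF : IsTF (fun u v => c s(u, v)) F) :
    ∃ P : List V, P.Nodup ∧ (∀ v, v ∈ P) ∧ PCL (fun u v => c s(u, v)) P := by
  classical
  set κ : V → V → ι := fun u v => c s(u, v) with hκ
  have hs : ∀ u v, κ u v = κ v u := fun u v => by simp [hκ, Sym2.eq_swap]
  -- minimal number of cycles
  have hex : ∃ n, ∃ F : List (List V), IsTF κ F ∧ F.length = n := ⟨_, F, hF, rfl⟩
  obtain ⟨G, hG, hGl⟩ := Nat.find_spec hex
  have hmin : ∀ F' : List (List V), IsTF κ F' → G.length ≤ F'.length := by
    intro F' hF'
    rw [hGl]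
    exact Nat.find_min' hex ⟨F', hF', rfl⟩
  have htot : ∀ A B R, G.Perm (A :: B :: R) → Arrow κ A B ∨ Arrow κ B A := by
    intro A B R hp
    by_contra hcon
    rw [not_or] at hcon
    have hfl : G.flatten.Perm (A ++ (B ++ R.flatten)) := by
      have := hp.flatten
      simpa using this
    have hnd : (A ++ (B ++ R.flatten)).Nodup := hfl.nodup_iff.1 hG.2.1
    have hdis : ∀ v ∈ A, v ∉ B := by
      intro v hvA hvB
      exact (List.nodup_append.1 hnd).2.2 v hvA v (by simp [hvB]) rfl
    obtain ⟨E, hE1, hE2⟩ := merge κ hs A B hdis hcon.1 hcon.2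
    have hper : ((E :: R).flatten).Perm (A ++ (B ++ R.flatten)) := by
      rw [List.flatten_cons, ← List.append_assoc]
      exact List.Perm.append_right _ hE2
    have hTF : IsTF κ (E :: R) := by
      refine ⟨?_, hper.nodup_iff.2 hnd, ?_⟩
      · intro l hl
        rcases List.mem_cons.1 hl with rfl | hl
        · exact hE1
        · exact hG.1 l (hp.symm.subset (by simp [hl]))
      · intro v
        exact hper.symm.subset (hfl.subset (hG.2.2 v))
    have := hmin _ hTF
    have hl := hp.length_eq
    simp at hl this
    omega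
  obtain ⟨F', hp, hch⟩ := sort_chain (Arrow κ) G htot
  have hall : ∀ D ∈ F', PCC κ D := fun D hD => hG.1 D (hp.subset hD)
  have hfl : F'.flatten.Perm G.flatten := hp.flatten
  cases hF' : F' with
  | nil =>
    refine ⟨[], by simp, ?_, by simp [PCL]⟩
    intro v
    have := hfl.symm.subset (hG.2.2 v)
    rw [hF'] at this
    simp at this
  | cons C R =>
    rw [hF'] at hch hall hfl
    have hC := hall C (by simp)
    -- write `C` as `L ++ [w', w]`
    obtain ⟨L, w', w, hL⟩ : ∃ L w' w, C = L ++ [w', w] := by
      rcases snoc_or C with h | ⟨L, w, hL⟩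
      · rw [h] at hC; exact absurd hC.2.1 (by simp)
      · rcases snoc_or L with h | ⟨L', w', hL'⟩
        · rw [hL, h] at hC; exact absurd hC.2.1 (by simp)
        · exact ⟨L', w', w, by rw [hL, hL']; simp⟩
    have hw : Nb κ C w w' := by
      have r1 := pcc_reverse κ _ hC
      have e : C.reverse = w :: (w' :: L.reverse) := by rw [hL]; simp
      rw [e] at r1
      have r2 := pcc_rot κ _ _ r1
      refine ⟨L.reverse, by simpa using r2, ?_⟩
      have q : (w' :: (L.reverse ++ [w])).Perm C.reverse := by
        rw [e]
        exact (List.perm_append_comm (l₁ := w' :: L.reverse) (l₂ := [w]))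
      exact q.trans (List.reverse_perm _)
    have hpcl : PCL κ (L ++ [w', w]) := by
      obtain ⟨n1, n2, n3⟩ := hC
      obtain ⟨p, q, hpq⟩ : ∃ p q, C.take 2 = [p, q] := by
        match C, n2 with
        | [], n2 => simp at n2
        | [a], n2 => simp at n2
        | a :: b :: C, _ => exact ⟨a, b, by simp⟩
      rw [hpq, hL, List.append_assoc] at n3
      have e' : L ++ ([w', w] ++ [p, q]) = L ++ w' :: w :: [p, q] := by simp
      rw [e', pcl_append] at n3
      exact n3.1
    obtain ⟨P, hP1, hP2⟩ := greedy κ R C L w' w (fun D hD => hall D (by simp [hD])) hch hw hpcl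
    rw [← hL] at hP1
    have hP3 : P.Perm G.flatten := hP1.trans (by simpa using hfl)
    exact ⟨P, hP3.nodup_iff.2 hG.2.1, fun v => hP3.symm.subset (hG.2.2 v), hP2⟩

end Pool.H28BE
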