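import Pool.Agent.H28.BE.Regular
import Pool.Agent.H28.BE.Extract
import Pool.Agent.H28.BE.Path

set_option autoImplicit false

/-! Assembly: exact Bollobas-Erdos condition gives a properly coloured 2-factor and a properly
coloured Hamilton path. -/

namespace Pool.H28BE

open Finset

theorem isTF_mono {V ι ι' : Type*} (κ : V → V → ι) (g : ι → ι') (κ' : V → V → ι')
    (h : ∀ u v, κ' u v = g (κ u v)) (hg : Function.Injective g) (F : List (List V))
    (hF : IsTF κ F) : IsTF κ' F := by
  have hP : ∀ l, PCL κ l → PCL κ' l := by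
    intro l
    induction l with
    | nil => intro _; trivial
    | cons a t ih =>
      cases t with
      | nil => intro _; trivial
      | cons b t =>
        cases t with
        | nil => intro _; trivial
        | cons c t =>
          intro hl
          refine ⟨?_, ih hl.2⟩
          rw [h, h]
          exact fun he => hl.1 (hg he)
  exact ⟨fun l hl => ⟨(hF.1 l hl).1, (hF.1 l hl).2.1, hP _ (hF.1 l hl).2.2⟩, hF.2.1, hF.2.2⟩

/-- degree hypothesis of the problem -/
def Hyp (n : ℕ) (col : Sym2 (Fin n) → ℕ) : Prop :=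
  ∀ (v : Fin n) (c : ℕ),
    (Finset.univ.filter (fun w : Fin n => w ≠ v ∧ col s(v, w) = c)).card + 1 ≤ n / 2

theorem regular_large (n : ℕ) (hn : 5 ≤ n) (col : Sym2 (Fin n) → ℕ) (h : Hyp n col) :
    ∃ H : SimpleGraph (Fin n), ∀ v, ∃ a b, a ≠ b ∧ col s(v, a) ≠ col s(v, b) ∧
      ∀ w, H.Adj v w ↔ (w = a ∨ w = b) := by
  classical
  let C : Finset ℕ := univ.image col
  let κ : Fin n → Fin n → C := fun u v => ⟨col s(u, v), mem_image_of_mem _ (mem_univ _)⟩
  have hD : ∀ v i, (univ.filter (fun u => u ≠ v ∧ κ v u = i)).card ≤ n / 2 - 1 := by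
    intro v i
    have h1 := h v i.1
    have h3 : (univ.filter (fun u => u ≠ v ∧ κ v u = i)).card
        ≤ (univ.filter (fun w : Fin n => w ≠ v ∧ col s(v, w) = i.1)).card := by
      apply Finset.card_le_card
      intro u hu
      rw [mem_filter] at hu ⊢
      refine ⟨mem_univ _, hu.2.1, ?_⟩
      exact congrArg Subtype.val hu.2.2
    omega
  obtain ⟨H, hH⟩ := exists_regular κ hD (by rw [Fintype.card_fin]; omega)
    (by rw [Fintype.card_fin]; exact hn)
  refine ⟨H, fun v => ?_⟩
  obtain ⟨a, b, hab, hκ, hadj⟩ := hH v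
  exact ⟨a, b, hab, fun he => hκ (Subtype.ext he), hadj⟩

theorem no_three (col : Sym2 (Fin 3) → ℕ) : ¬ Hyp 3 col := by
  intro h
  have := h 0 (col s(0, 1))
  have h1 : 0 < (Finset.univ.filter (fun w : Fin 3 => w ≠ 0 ∧ col s(0, w) = col s(0, 1))).card := by
    rw [Finset.card_pos]
    exact ⟨1, by simp⟩
  omega

theorem proper_four (col : Sym2 (Fin 4) → ℕ) (h : Hyp 4 col) (v a b : Fin 4) (ha : a ≠ v)
    (hb : b ≠ v) (hab : a ≠ b) : col s(v, a) ≠ col s(v, b) := by
  intro he
  have h1 := h v (col s(v, b))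
  have h2 : 2 ≤ (Finset.univ.filter
      (fun w : Fin 4 => w ≠ v ∧ col s(v, w) = col s(v, b))).card := by
    have : ({a, b} : Finset (Fin 4)) ⊆ Finset.univ.filter
        (fun w : Fin 4 => w ≠ v ∧ col s(v, w) = col s(v, b)) := by
      intro x hx
      rw [mem_insert, mem_singleton] at hx
      rw [mem_filter]
      rcases hx with rfl | rfl
      · exact ⟨mem_univ _, ha, he⟩
      · exact ⟨mem_univ _, hb, rfl⟩
    calc 2 = ({a, b} : Finset (Fin 4)).card := (Finset.card_pair hab).symm
      _ ≤ _ := Finset.card_le_card this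
  omega

theorem regular_four (col : Sym2 (Fin 4) → ℕ) (h : Hyp 4 col) :
    ∃ H : SimpleGraph (Fin 4), ∀ v, ∃ a b, a ≠ b ∧ col s(v, a) ≠ col s(v, b) ∧
      ∀ w, H.Adj v w ↔ (w = a ∨ w = b) := by
  let H : SimpleGraph (Fin 4) :=
    { Adj := fun v w => w = v + 1 ∨ v = w + 1
      symm := ⟨fun v w hvw => hvw.symm⟩
      loopless := ⟨fun v hv => by revert hv; revert v; decide⟩ }
  refine ⟨H, fun v => ⟨v + 1, v - 1, ?_, ?_, ?_⟩⟩
  · revert v; decide
  · apply proper_four col h v
    · revert v; decide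
    · revert v; decide
    · revert v; decide
  · intro w
    show (w = v + 1 ∨ v = w + 1) ↔ _
    revert v w; decide

theorem regular_all (n : ℕ) (hn : 3 ≤ n) (col : Sym2 (Fin n) → ℕ) (h : Hyp n col) :
    ∃ H : SimpleGraph (Fin n), ∀ v, ∃ a b, a ≠ b ∧ col s(v, a) ≠ col s(v, b) ∧
      ∀ w, H.Adj v w ↔ (w = a ∨ w = b) := by
  rcases Nat.lt_or_ge n 5 with hlt | hge
  · interval_cases n
    · exact absurd h (no_three col)
    · exact regular_four col h
  · exact regular_large n hge col h

theorem PCL_getD {V ι : Type*} (κ : V → V → ι) (l : List V) (h : PCL κ l) (d : V) (i : ℕ)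
    (hi : i + 2 < l.length) :
    κ (l.getD (i + 1) d) (l.getD i d) ≠ κ (l.getD (i + 1) d) (l.getD (i + 2) d) := by
  induction l generalizing i with
  | nil => simp at hi
  | cons a t ih =>
    cases t with
    | nil => simp at hi
    | cons b t =>
      cases t with
      | nil => simp at hi
      | cons c t =>
        cases i with
        | zero => simpa using h.1
        | succ i =>
          have := ih h.2 i (by simpa using hi)
          simpa using this

theorem main (n : ℕ) (hn : 3 ≤ n) (col : Sym2 (Fin n) → ℕ) (h : Hyp n col) :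
    (∃ H : SimpleGraph (Fin n), ∀ v, ∃ a b, a ≠ b ∧ col s(v, a) ≠ col s(v, b) ∧
      ∀ w, H.Adj v w ↔ (w = a ∨ w = b)) ∧
    (∃ f : ℕ → Fin n, (∀ i j : ℕ, i < n → j < n → f i = f j → i = j) ∧
      ∀ i : ℕ, i + 2 < n → col s(f i, f (i + 1)) ≠ col s(f (i + 1), f (i + 2))) := by
  classical
  refine ⟨regular_all n hn col h, ?_⟩
  obtain ⟨H, hH⟩ := regular_all n hn col h
  obtain ⟨F, hF⟩ := cycles_of_regular (fun u v => col s(u, v)) H hH
  obtain ⟨P, hnd, hmem, hP⟩ := path_of_twoFactor col F hF
  have hlen : P.length = n := by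
    have h1 : P.toFinset = univ := by
      ext v
      simp [hmem v]
    have h2 := List.toFinset_card_of_nodup hnd
    rw [h1, Finset.card_univ, Fintype.card_fin] at h2
    exact h2.symm
  have hpos : 0 < n := by omega
  refine ⟨fun i => P.getD i ⟨0, hpos⟩, ?_, ?_⟩
  · intro i j hi hj hij
    rw [← hlen] at hi hj
    simp only [List.getD_eq_getElem _ _ hi, List.getD_eq_getElem _ _ hj] at hij
    exact (List.Nodup.getElem_inj_iff hnd).mp hij
  · intro i hi
    rw [← hlen] at hi
    have := PCL_getD _ P hP ⟨0, hpos⟩ i hi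
    rw [Sym2.eq_swap]
    exact this

end Pool.H28BE
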