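import Pool.Agent.H28.BE.Class

set_option autoImplicit false

/-! (E2): an odd class of small cost is large. -/

namespace Pool.H28BE

open Finset

section Count

variable {V ι : Type*} [Fintype V] [DecidableEq V] [Fintype ι] [DecidableEq ι]
variable {κ : V → V → ι} {S : Finset (Node V ι)}
variable {r : V → Fin (Fintype.card ι - 2)}
variable {D : ℕ}

/-- the case where every hub of the class has two removed slots and no removed dummy -/
theorem e2_two (hD : ∀ v i, (univ.filter (fun u => u ≠ v ∧ κ v u = i)).card ≤ D)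
    (h2 : 2 * D + 2 ≤ Fintype.card V) (hq : 3 ≤ Fintype.card ι)
    {comp : Node V ι → Node V ι} (hc : Closed κ S comp)
    (hr : ∀ v, ¬ isP S v → ¬ dm S v (r v)) (K : Node V ι)
    (hodd : Odd (Sᶜ.filter (fun x => comp x = K)).card)
    (hcost : ∑ x ∈ Sᶜ.filter (fun x => comp x = K), mc κ S r x < (Fintype.card V : ℤ) - 1)
    (hnoF : ∀ v k, isF S v → ¬ dm S v k → comp (Sum.inr (v, k)) ≠ K)
    (htwo : ∀ v, hub S v → comp (Sum.inr (v, r v)) = K → ic S v = 2 ∧ dc S v = 0) :
    (Fintype.card V : ℤ) ≤ 2 * ∑ x ∈ Sᶜ.filter (fun x => comp x = K), tf κ S r x := by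
  set T := Sᶜ.filter (fun x => comp x = K) with hTdef
  have hmemT : ∀ x, x ∈ T ↔ x ∉ S ∧ comp x = K := by
    intro x
    rw [hTdef, mem_filter, mem_compl]
  set Z := univ.filter (fun v => isP S v ∧ ∃ i, (Sum.inl (v, i) : Node V ι) ∈ T) with hZ
  set Hb := univ.filter (fun v => hub S v ∧ comp (Sum.inr (v, r v)) = K) with hHb
  -- slots and dummies of a hub in the class
  have hubslot : ∀ v ∈ Hb, ∀ i, (Sum.inl (v, i) : Node V ι) ∈ T ↔ ¬ sl S v i := by
    intro v hv i
    rw [hHb, mem_filter] at hv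
    rw [hmemT]
    constructor
    · intro h; exact h.1
    · intro h
      exact ⟨h, by rw [comp_slot hc hr v hv.2.1.1 i h, hv.2.2]⟩
  have hubdum : ∀ v ∈ Hb, ∀ k, (Sum.inr (v, k) : Node V ι) ∈ T := by
    intro v hv k
    have hv' := hv
    rw [hHb, mem_filter] at hv
    have hd := (htwo v hv.2.1 hv.2.2).2
    have hk : ¬ dm S v k := by
      intro hk
      have : (univ.filter (fun k => dm S v k)).card = 0 := by
        unfold dc at hd
        exact_mod_cast hd
      rw [Finset.card_eq_zero, Finset.filter_eq_empty_iff] at this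
      exact this (mem_univ k) hk
    rw [hmemT]
    exact ⟨hk, by rw [comp_dummy hc hr v hv.2.1.1 hv.2.1.2 k hk, hv.2.2]⟩
  have nonslot : ∀ v, v ∉ Z → v ∉ Hb → ∀ i, (Sum.inl (v, i) : Node V ι) ∉ T := by
    intro v hvZ hvH i hi
    by_cases hP : isP S v
    · exact hvZ (by rw [hZ, mem_filter]; exact ⟨mem_univ _, hP, i, hi⟩)
    · rw [hmemT] at hi
      apply hvH
      rw [hHb, mem_filter]
      refine ⟨mem_univ _, ⟨hP, fun h => hi.1 (h i)⟩, ?_⟩
      rw [← comp_slot hc hr v hP i hi.1, hi.2]
  have nondum : ∀ v, v ∉ Hb → ∀ k, (Sum.inr (v, k) : Node V ι) ∉ T := by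
    intro v hvH k hk
    rw [hmemT] at hk
    have hP : ¬ isP S v := fun h => hk.1 (h k)
    by_cases hF : isF S v
    · exact hnoF v k hF hk.1 hk.2
    · apply hvH
      rw [hHb, mem_filter]
      refine ⟨mem_univ _, ⟨hP, hF⟩, ?_⟩
      rw [← comp_dummy hc hr v hP hF k hk.1, hk.2]
  -- parity: Z is nonempty
  have hZne : Z.Nonempty := by
    by_contra hemp
    rw [Finset.not_nonempty_iff_eq_empty] at hemp
    have hcard : (T.card : ℤ) = ∑ v, vs T (fun _ => 1) v := by
      rw [← sum_vs, Finset.sum_const, nsmul_eq_mul, mul_one]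
    have hev : ∀ v, ∃ k : ℤ, vs T (fun _ => 1) v = 2 * k := by
      intro v
      by_cases hv : v ∈ Hb
      · have hv2 := hv
        rw [hHb, mem_filter] at hv2
        have hi2 := (htwo v hv2.2.1 hv2.2.2).1
        refine ⟨(Fintype.card ι : ℤ) - 2, ?_⟩
        unfold vs
        have s1 : ∑ i, (if (Sum.inl (v, i) : Node V ι) ∈ T then (1 : ℤ) else 0)
            = (Fintype.card ι : ℤ) - 2 := by
          have h3 : ∑ i, (if (Sum.inl (v, i) : Node V ι) ∈ T then (1 : ℤ) else 0)
              = ((univ.filter (fun i => ¬ sl S v i)).card : ℤ) := by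
            rw [Finset.card_filter]
            push_cast
            apply Finset.sum_congr rfl
            intro i _
            by_cases hi : sl S v i
            · simp [hubslot v hv i, hi]
            · simp [hubslot v hv i, hi]
          rw [h3]
          have h4 := Finset.card_filter_add_card_filter_not (s := (univ : Finset ι))
            (fun i => sl S v i)
          rw [Finset.card_univ] at h4
          unfold ic at hi2
          omega
        have s2 : ∑ k, (if (Sum.inr (v, k) : Node V ι) ∈ T then (1 : ℤ) else 0)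
            = (Fintype.card ι : ℤ) - 2 := by
          have h3 : ∀ k, (if (Sum.inr (v, k) : Node V ι) ∈ T then (1 : ℤ) else 0) = 1 := by
            intro k
            rw [if_pos (hubdum v hv k)]
          rw [Finset.sum_congr rfl (fun k _ => h3 k)]
          simp
          omega
        rw [s1, s2]
        ring
      · refine ⟨0, ?_⟩
        have hvZ : v ∉ Z := by rw [hemp]; exact Finset.notMem_empty v
        unfold vs
        have s1 : ∑ i, (if (Sum.inl (v, i) : Node V ι) ∈ T then (1 : ℤ) else 0) = 0 := by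
          apply Finset.sum_eq_zero
          intro i _
          rw [if_neg (nonslot v hvZ hv i)]
        have s2 : ∑ k, (if (Sum.inr (v, k) : Node V ι) ∈ T then (1 : ℤ) else 0) = 0 := by
          apply Finset.sum_eq_zero
          intro i _
          rw [if_neg (nondum v hv i)]
        rw [s1, s2]
        rfl
    choose k hk using hev
    rw [Finset.sum_congr rfl (fun v _ => hk v), ← Finset.mul_sum] at hcard
    obtain ⟨m, hm⟩ := hodd
    omega
  have hz1 : (1 : ℤ) ≤ Z.card := by
    have := hZne.card_pos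
    exact_mod_cast this
  -- weight bound
  have htf : (Z.card : ℤ) ≤ ∑ x ∈ T, tf κ S r x := by
    rw [sum_vs]
    have h3 : ∑ v, (if v ∈ Z then (1 : ℤ) else 0) ≤ ∑ v, vs T (tf κ S r) v := by
      apply Finset.sum_le_sum
      intro v _
      split_ifs with hv
      · rw [hZ, mem_filter] at hv
        obtain ⟨_, hP, i, hi⟩ := hv
        have hi2 := (hmemT _).mp hi
        exact live_tf hc hr K v i hi2.1 hi2.2
      · exact vs_nonneg _ _ (tf_nonneg κ S r) v
    rw [← Finset.sum_filter] at h3
    simpa using h3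
  -- cost bound
  have hdis : ∀ v ∈ Z, v ∉ Hb := by
    intro v hv hv2
    rw [hZ, mem_filter] at hv
    rw [hHb, mem_filter] at hv2
    exact hv2.2.1.1 hv.2.1
  have hcZ : ∀ v ∈ Z, ((Fintype.card V : ℤ) - 1)
      - 2 * ((Z.card : ℤ) - 1 + ((Hb.filter (fun u => v ≠ u ∧ ¬ sl S u (κ u v)
        ∧ ¬ sl S v (κ v u))).card : ℤ)) ≤ vs T (mc κ S r) v := by
    intro v hv
    have hvv := hv
    rw [hZ, mem_filter] at hv
    obtain ⟨_, hP, i0, hi0⟩ := hv
    unfold vs
    have s2 : ∑ k, (if (Sum.inr (v, k) : Node V ι) ∈ T then mc κ S r (Sum.inr (v, k)) else 0)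
        = 0 := by
      apply Finset.sum_eq_zero
      intro k _
      rw [if_neg (nondum v (hdis v hvv) k)]
    rw [s2, add_zero]
    set A := univ.filter (fun i => (Sum.inl (v, i) : Node V ι) ∈ T) with hA
    have e2 : ∑ i, (if (Sum.inl (v, i) : Node V ι) ∈ T then mc κ S r (Sum.inl (v, i)) else 0)
        = ∑ i ∈ A, (((Fintype.card V : ℤ) - 1) - 2 * ld κ S v i) := by
      rw [← Finset.sum_filter, ← hA]
      apply Finset.sum_congr rfl
      intro i _
      simp [mc, hP]
    have hA1 : 1 ≤ A.card := by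
      apply Finset.card_pos.mpr
      exact ⟨i0, by rw [hA, mem_filter]; exact ⟨mem_univ _, hi0⟩⟩
    have hld : ∑ i ∈ A, ld κ S v i ≤ (Z.card : ℤ) - 1 + ((Hb.filter (fun u => v ≠ u
        ∧ ¬ sl S u (κ u v) ∧ ¬ sl S v (κ v u))).card : ℤ) := by
      have h3 : ∑ i ∈ A, ld κ S v i
          = ((univ.filter (fun u => (u ≠ v ∧ ¬ sl S v (κ v u) ∧ ¬ sl S u (κ u v))
            ∧ κ v u ∈ A)).card : ℤ) := by
        unfold ld
        rw [← Nat.cast_sum]
        congr 1
        have h4 := Finset.card_eq_sum_card_fiberwise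
          (s := univ.filter (fun u => (u ≠ v ∧ ¬ sl S v (κ v u) ∧ ¬ sl S u (κ u v))
            ∧ κ v u ∈ A))
          (t := A) (f := fun u => κ v u) (fun x hx => by
            rw [Finset.mem_coe, mem_filter] at hx
            exact hx.2.2)
        rw [h4]
        apply Finset.sum_congr rfl
        intro i hi
        rw [Finset.filter_filter]
        congr 1
        ext u
        simp only [mem_filter, mem_univ, true_and]
        constructor
        · rintro ⟨h5, h6⟩
          exact ⟨⟨h5, by rw [h6]; exact hi⟩, h6⟩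
        · rintro ⟨⟨h5, _⟩, h6⟩
          exact ⟨h5, h6⟩
      rw [h3]
      have hsub : (univ.filter (fun u => (u ≠ v ∧ ¬ sl S v (κ v u) ∧ ¬ sl S u (κ u v))
            ∧ κ v u ∈ A)) ⊆ (Z.erase v) ∪ (Hb.filter (fun u => v ≠ u
        ∧ ¬ sl S u (κ u v) ∧ ¬ sl S v (κ v u))) := by
        intro u hu
        rw [mem_filter] at hu
        obtain ⟨_, ⟨huv, hl1, hl2⟩, huA⟩ := hu
        rw [hA, mem_filter] at huA
        have hvu := (hmemT _).mp huA.2
        have huK : comp (Sum.inl (u, κ u v)) = K := by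
          rw [← comp_live hc v u huv hl1 hl2, hvu.2]
        rw [mem_union]
        by_cases hPu : isP S u
        · left
          rw [mem_erase]
          refine ⟨huv, ?_⟩
          rw [hZ, mem_filter]
          exact ⟨mem_univ _, hPu, κ u v, (hmemT _).mpr ⟨hl2, huK⟩⟩
        · right
          rw [mem_filter]
          refine ⟨?_, huv.symm, hl2, hl1⟩
          rw [hHb, mem_filter]
          refine ⟨mem_univ _, ⟨hPu, fun h => hl2 (h _)⟩, ?_⟩
          rw [← comp_slot hc hr u hPu _ hl2, huK]
      have h4 := (Finset.card_le_card hsub).trans (Finset.card_union_le _ _)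
      rw [Finset.card_erase_of_mem hvv] at h4
      have h5 : 1 ≤ Z.card := hZne.card_pos
      omega
    rw [e2, Finset.sum_sub_distrib, Finset.sum_const, nsmul_eq_mul, ← Finset.mul_sum]
    have hA1' : (1 : ℤ) ≤ A.card := by exact_mod_cast hA1
    have hM : (0 : ℤ) ≤ (Fintype.card V : ℤ) - 1 := by
      have : 1 ≤ Fintype.card V := Fintype.card_pos_iff.mpr ⟨v⟩
      have : (1 : ℤ) ≤ Fintype.card V := by exact_mod_cast this
      linarith
    nlinarith
  have hcH : ∀ v ∈ Hb, 2 * lv κ S v ≤ vs T (mc κ S r) v := by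
    intro v hv
    have hv2 := hv
    rw [hHb, mem_filter] at hv2
    have h3 := le_vs_inr T (mc κ S r) (mc_nonneg κ S r hD h2) v (r v) (hubdum v hv (r v))
    have h4 : mc κ S r (Sum.inr (v, r v)) = tau κ S v := by simp [mc, hv2.2.1.2]
    rw [h4] at h3
    refine le_trans ?_ h3
    unfold tau
    rw [(htwo v hv2.2.1 hv2.2.2).1, (htwo v hv2.2.1 hv2.2.2).2]
    have h5 := gfl κ S v
    have h6 := fv_nonneg κ S v
    linarith
  have hdouble : ∑ v ∈ Z, ((Hb.filter (fun u => v ≠ u ∧ ¬ sl S u (κ u v)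
        ∧ ¬ sl S v (κ v u))).card : ℤ) ≤ ∑ u ∈ Hb, lv κ S u := by
    unfold lv
    rw [← Nat.cast_sum, ← Nat.cast_sum]
    apply Nat.cast_le.mpr
    simp only [Finset.card_filter]
    rw [Finset.sum_comm]
    apply Finset.sum_le_sum
    intro u _
    exact Finset.sum_le_sum_of_subset (Finset.subset_univ Z)
  have hcost2 : (Z.card : ℤ) * (((Fintype.card V : ℤ) - 1) - 2 * ((Z.card : ℤ) - 1))
      ≤ ∑ x ∈ T, mc κ S r x := by
    rw [sum_vs]
    have h3 : ∑ v ∈ Z, vs T (mc κ S r) v + ∑ v ∈ Hb, vs T (mc κ S r) v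
        ≤ ∑ v, vs T (mc κ S r) v := by
      rw [← Finset.sum_union]
      · exact Finset.sum_le_sum_of_subset_of_nonneg (Finset.subset_univ _)
          (fun v _ _ => vs_nonneg _ _ (mc_nonneg κ S r hD h2) v)
      · rw [Finset.disjoint_left]
        exact hdis
    have h4 := Finset.sum_le_sum hcZ
    have h5 := Finset.sum_le_sum hcH
    rw [Finset.sum_sub_distrib, Finset.sum_const, nsmul_eq_mul, ← Finset.mul_sum,
      Finset.sum_add_distrib, Finset.sum_const, nsmul_eq_mul] at h4
    rw [← Finset.mul_sum] at h5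
    linarith
  have hlt : (Z.card : ℤ) * (((Fintype.card V : ℤ) - 1) - 2 * ((Z.card : ℤ) - 1))
      < (Fintype.card V : ℤ) - 1 := lt_of_le_of_lt hcost2 hcost
  have hlt2 : ((Z.card : ℤ) - 1) * ((Fintype.card V : ℤ) - 1 - 2 * Z.card) < 0 := by
    nlinarith
  have : (Fintype.card V : ℤ) - 1 - 2 * Z.card < 0 := by
    by_contra hcon
    push Not at hcon
    have := mul_nonneg (by linarith : (0 : ℤ) ≤ (Z.card : ℤ) - 1) hcon
    linarith
  linarith

/-- (E2) -/
theorem e2 (hD : ∀ v i, (univ.filter (fun u => u ≠ v ∧ κ v u = i)).card ≤ D)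
    (h2 : 2 * D + 2 ≤ Fintype.card V) (hq : 3 ≤ Fintype.card ι)
    {comp : Node V ι → Node V ι} (hc : Closed κ S comp)
    (hr : ∀ v, ¬ isP S v → ¬ dm S v (r v)) (K : Node V ι)
    (hodd : Odd (Sᶜ.filter (fun x => comp x = K)).card)
    (hcost : ∑ x ∈ Sᶜ.filter (fun x => comp x = K), mc κ S r x < (Fintype.card V : ℤ) - 1) :
    (Fintype.card V : ℤ) ≤ 2 * ∑ x ∈ Sᶜ.filter (fun x => comp x = K), tf κ S r x := by
  have h5 : (2 * (D : ℤ) + 2 ≤ Fintype.card V) := by exact_mod_cast h2
  have hD0 : (0 : ℤ) ≤ D := by positivity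
  by_cases hsmall : ∃ v, hub S v ∧ comp (Sum.inr (v, r v)) = K ∧ ic S v ≤ 1
  · obtain ⟨v, hv, hK, hi⟩ := hsmall
    have h3 := hub_tf hc hr K v hv hK
    have h4 := gv_le κ S hD v
    have h6 := ic_nonneg S v
    nlinarith
  · push Not at hsmall
    apply e2_two hD h2 hq hc hr K hodd hcost
    · intro v k hF hk hK
      have hmem : (Sum.inr (v, k) : Node V ι) ∈ Sᶜ.filter (fun x => comp x = K) := by
        rw [mem_filter, mem_compl]
        exact ⟨hk, hK⟩
      have h3 := Finset.single_le_sum (f := mc κ S r) (fun x _ => mc_nonneg κ S r hD h2 x) hmem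
      have e : mc κ S r (Sum.inr (v, k)) = ((Fintype.card V : ℤ) - 1) := by
        simp [mc, hF]
      rw [e] at h3
      linarith
    · intro v hv hK
      have h3 := hub_cost (κ := κ) hD h2 hr K v hv hK
      have h4 := hsmall v hv hK
      have h6 := dc_nonneg S v
      have h7 := gv_le κ S hD v
      have h8 := gv_le_all κ S v
      have h9 := fv_nonneg κ S v
      have h10 : tau κ S v < (Fintype.card V : ℤ) - 1 := lt_of_le_of_lt h3 hcost
      unfold tau at h10
      have hM : (0 : ℤ) < (Fintype.card V : ℤ) - 1 := by linarith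
      have hd0 : dc S v = 0 := by
        by_contra hd
        have hd1 : 1 ≤ dc S v := by omega
        have : 0 ≤ ((Fintype.card V : ℤ) - 1) * (dc S v - 1) := mul_nonneg hM.le (by linarith)
        have h11 : 2 * gv κ S v ≤ ((Fintype.card V : ℤ) - 1) * ic S v := by nlinarith
        linarith
      refine ⟨?_, hd0⟩
      by_contra hne
      have h3' : 3 ≤ ic S v := by omega
      rw [hd0, add_zero] at h10
      have : 0 ≤ ((Fintype.card V : ℤ) - 1) * (ic S v - 3) := mul_nonneg hM.le (by linarith)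
      linarith

end Count

end Pool.H28BE
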