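import Mathlib

set_option autoImplicit false

/-! Tutte's theorem in a form which only uses labelled classes closed under adjacency. -/

namespace Pool.H28BE

open Finset

theorem tutte_form {W : Type*} [Fintype W] [DecidableEq W] (G : SimpleGraph W)
    (heven : Even (Fintype.card W))
    (h : ∀ (S : Finset W) (comp : W → W),
      (∀ x y, x ∉ S → y ∉ S → G.Adj x y → comp x = comp y) →
      ((Sᶜ.image comp).filter (fun k => Odd ((Sᶜ.filter (fun x => comp x = k)).card))).card
        ≤ S.card + 1) :
    ∃ M : G.Subgraph, M.IsPerfectMatching := by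
  classical
  rw [SimpleGraph.tutte]
  intro u hu
  unfold SimpleGraph.IsTutteViolator at hu
  set G' := ((⊤ : G.Subgraph).deleteVerts u).coe with hG'
  set S : Finset W := u.toFinset with hS
  have hverts : ∀ x, x ∉ S → x ∈ ((⊤ : G.Subgraph).deleteVerts u).verts := by
    intro x hx
    simpa [hS] using hx
  have hverts' : ∀ x, x ∈ ((⊤ : G.Subgraph).deleteVerts u).verts → x ∉ S := by
    intro x hx
    simpa [hS] using hx
  -- representative of a component
  let rep : G'.ConnectedComponent → W := fun K => (Quot.out K).1
  have hrep_mk : ∀ K : G'.ConnectedComponent, G'.connectedComponentMk (Quot.out K) = K := by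
    intro K
    exact Quot.out_eq K
  have hrep_inj : Function.Injective rep := by
    intro K L hKL
    have : (Quot.out K : ((⊤ : G.Subgraph).deleteVerts u).verts) = Quot.out L := Subtype.ext hKL
    rw [← hrep_mk K, ← hrep_mk L, this]
  let comp : W → W := fun x => if hx : x ∉ S then
    rep (G'.connectedComponentMk ⟨x, hverts x hx⟩) else x
  have hcomp : ∀ x (hx : x ∉ S), comp x = rep (G'.connectedComponentMk ⟨x, hverts x hx⟩) := by
    intro x hx
    simp only [comp, dif_pos hx]
  have hadj : ∀ x y, x ∉ S → y ∉ S → G.Adj x y → comp x = comp y := by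
    intro x y hx hy hxy
    rw [hcomp x hx, hcomp y hy]
    congr 1
    apply SimpleGraph.ConnectedComponent.sound
    apply SimpleGraph.Adj.reachable
    rw [hG', SimpleGraph.Subgraph.coe_adj, SimpleGraph.Subgraph.deleteVerts_adj]
    refine ⟨by simp, ?_, by simp, ?_, by simpa using hxy⟩
    · simpa [hS] using hx
    · simpa [hS] using hy
  have key := h S comp hadj
  -- count
  have hfiber : ∀ K : G'.ConnectedComponent,
      (Sᶜ.filter (fun x => comp x = rep K)).card = K.supp.ncard := by
    intro K
    have himg : Sᶜ.filter (fun x => comp x = rep K)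
        = (Subtype.val '' K.supp : Set W).toFinset := by
      ext x
      simp only [mem_filter, mem_compl, Set.mem_toFinset, Set.mem_image,
        SimpleGraph.ConnectedComponent.mem_supp_iff, Subtype.exists, exists_and_right,
        exists_eq_right]
      constructor
      · rintro ⟨hx, hxc⟩
        rw [hcomp x hx] at hxc
        exact ⟨hverts x hx, hrep_inj hxc⟩
      · rintro ⟨hx, hxc⟩
        have hx' := hverts' x hx
        refine ⟨hx', ?_⟩
        rw [hcomp x hx', hxc]
    rw [himg, ← Set.ncard_eq_toFinset_card', Set.ncard_image_of_injective _ Subtype.val_injective]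
  have hset : ((Sᶜ.image comp).filter
      (fun k => Odd ((Sᶜ.filter (fun x => comp x = k)).card)))
      = (rep '' G'.oddComponents : Set W).toFinset := by
    ext k
    simp only [mem_filter, mem_image, mem_compl, Set.mem_toFinset, Set.mem_image,
      Set.mem_ofPred_eq]
    constructor
    · rintro ⟨⟨x, hx, rfl⟩, hodd⟩
      refine ⟨G'.connectedComponentMk ⟨x, hverts x hx⟩, ?_, (hcomp x hx).symm⟩
      rw [hcomp x hx, hfiber] at hodd
      exact hodd
    · rintro ⟨K, hK, rfl⟩
      refine ⟨⟨rep K, hverts' _ (Quot.out K).2, ?_⟩, ?_⟩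
      · rw [hcomp _ (hverts' _ (Quot.out K).2)]
        congr 1
        exact hrep_mk K
      · rw [hfiber]; exact hK
  have hcard : ((Sᶜ.image comp).filter
      (fun k => Odd ((Sᶜ.filter (fun x => comp x = k)).card))).card
      = G'.oddComponents.ncard := by
    rw [hset, ← Set.ncard_eq_toFinset_card', Set.ncard_image_of_injective _ hrep_inj]
  rw [hcard] at key
  have hSu : u.ncard = S.card := by rw [hS, Set.ncard_eq_toFinset_card']
  have heq : G'.oddComponents.ncard = S.card + 1 := by omega
  have hpar := SimpleGraph.odd_ncard_oddComponents (G := G')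
  have hcv : Nat.card (((⊤ : G.Subgraph).deleteVerts u).verts) = Fintype.card W - S.card := by
    have : ((⊤ : G.Subgraph).deleteVerts u).verts = (↑(Sᶜ) : Set W) := by
      ext x
      simp [hS]
    rw [this, Nat.card_coe_set_eq, Set.ncard_coe_finset, Finset.card_compl]
  rw [heq, hcv] at hpar
  have hle : S.card ≤ Fintype.card W := Finset.card_le_univ S
  obtain ⟨k, hk⟩ := heven
  have : Odd (S.card + 1) ↔ Odd S.card := by
    rw [hpar]
    rw [hk] at hle ⊢
    constructor
    · rintro ⟨m, hm⟩
      refine ⟨k - m - 1, ?_⟩
      omega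
    · rintro ⟨m, hm⟩
      refine ⟨k - m - 1, ?_⟩
      omega
  rcases Nat.even_or_odd S.card with he | ho
  · have h1 : Odd (S.card + 1) := he.add_one
    exact (Nat.not_odd_iff_even.mpr he) (this.mp h1)
  · have h1 : Odd (S.card + 1) := this.mpr ho
    exact (Nat.not_even_iff_odd.mpr h1) (ho.add_one)

end Pool.H28BE
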