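import Pool.Agent.H28.BE.Odd
import Pool.Agent.H28.BE.TutteForm

set_option autoImplicit false

/-! Existence of a compatible 2-factor as a 2-regular graph. -/

namespace Pool.H28BE

open Finset

section Final

variable {V ι : Type*} [Fintype V] [DecidableEq V] [Fintype ι] [DecidableEq ι]

theorem odd_count (κ : V → V → ι) {D : ℕ}
    (hD : ∀ v i, (univ.filter (fun u => u ≠ v ∧ κ v u = i)).card ≤ D)
    (h2 : 2 * D + 2 ≤ Fintype.card V) (hn : 5 ≤ Fintype.card V) (hq : 3 ≤ Fintype.card ι)
    (S : Finset (Node V ι)) (comp : Node V ι → Node V ι)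
    (hc : ∀ x y, x ∉ S → y ∉ S → (gadget κ).Adj x y → comp x = comp y) :
    ((Sᶜ.image comp).filter (fun k => Odd ((Sᶜ.filter (fun x => comp x = k)).card))).card
        ≤ S.card + 1 := by
  classical
  have h5 : (2 * (D : ℤ) + 2 ≤ Fintype.card V) := by exact_mod_cast h2
  have hn5 : ((5 : ℤ) ≤ Fintype.card V) := by exact_mod_cast hn
  -- representative dummies
  have hex : ∀ v, ∃ k : Fin (Fintype.card ι - 2), ¬ isP S v → ¬ dm S v k := by
    intro v
    by_cases hP : isP S v
    · exact ⟨⟨0, by omega⟩, fun h => absurd hP h⟩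
    · have := hP
      unfold isP at this
      push Not at this
      obtain ⟨k, hk⟩ := this
      exact ⟨k, fun _ => hk⟩
  choose r hr using hex
  set O := (Sᶜ.image comp).filter (fun k => Odd ((Sᶜ.filter (fun x => comp x = k)).card)) with hO
  let cost : Node V ι → ℤ := fun K => ∑ x ∈ Sᶜ.filter (fun x => comp x = K), mc κ S r x
  let wt : Node V ι → ℤ := fun K => ∑ x ∈ Sᶜ.filter (fun x => comp x = K), tf κ S r x
  have hcost0 : ∀ K, 0 ≤ cost K := fun K =>
    Finset.sum_nonneg (fun x _ => mc_nonneg κ S r hD h2 x)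
  set Df := O.filter (fun K => cost K < (Fintype.card V : ℤ) - 1) with hDf
  -- sum over classes
  have hsumclass : ∀ (P : Finset (Node V ι)) (φ : Node V ι → ℤ),
      ∑ K ∈ P, ∑ x ∈ Sᶜ.filter (fun x => comp x = K), φ x
        = ∑ x ∈ Sᶜ.filter (fun x => comp x ∈ P), φ x := by
    intro P φ
    rw [← Finset.sum_fiberwise_of_maps_to (s := Sᶜ.filter (fun x => comp x ∈ P)) (t := P)
      (g := comp) (fun x hx => (mem_filter.mp hx).2)]
    apply Finset.sum_congr rfl
    intro K hK
    apply Finset.sum_congr _ (fun _ _ => rfl)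
    ext x
    simp only [mem_filter, mem_compl]
    constructor
    · rintro ⟨h1, h2⟩
      exact ⟨⟨h1, by rw [h2]; exact hK⟩, h2⟩
    · rintro ⟨⟨h1, _⟩, h2⟩
      exact ⟨h1, h2⟩
  have hE1 := e1 κ S r hD h2 hq hr
  have htotal : ∑ K ∈ O, cost K ≤ ∑ x ∈ Sᶜ, mc κ S r x := by
    rw [hsumclass O]
    exact Finset.sum_le_sum_of_subset_of_nonneg (Finset.filter_subset _ _)
      (fun x _ _ => mc_nonneg κ S r hD h2 x)
  have hsplit : ∑ K ∈ O, cost K = ∑ K ∈ Df, cost K
      + ∑ K ∈ O.filter (fun K => ¬ cost K < (Fintype.card V : ℤ) - 1), cost K :=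
    (Finset.sum_filter_add_sum_filter_not O _ _).symm
  have hbig : ((O.filter (fun K => ¬ cost K < (Fintype.card V : ℤ) - 1)).card : ℤ)
      * ((Fintype.card V : ℤ) - 1)
      ≤ ∑ K ∈ O.filter (fun K => ¬ cost K < (Fintype.card V : ℤ) - 1), cost K := by
    rw [← nsmul_eq_mul, ← Finset.sum_const]
    apply Finset.sum_le_sum
    intro K hK
    have := (mem_filter.mp hK).2
    linarith
  have hcardO := Finset.card_filter_add_card_filter_not (s := O)
    (fun K => cost K < (Fintype.card V : ℤ) - 1)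
  rw [← hDf] at hcardO
  have hcardO' : (Df.card : ℤ)
      + ((O.filter (fun K => ¬ cost K < (Fintype.card V : ℤ) - 1)).card : ℤ) = O.card := by
    exact_mod_cast hcardO
  -- the deficient classes
  have hwt : ∀ K ∈ Df, (Fintype.card V : ℤ) ≤ 2 * wt K := by
    intro K hK
    rw [hDf, mem_filter, hO, mem_filter] at hK
    exact e2 hD h2 hq hc hr K hK.1.2 hK.2
  have hE3 : 2 * (∑ K ∈ Df, wt K - Fintype.card V) ≤ ∑ K ∈ Df, cost K := by
    rw [hsumclass Df, hsumclass Df]
    apply e3 κ S r hD h2 hn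
    intro x hx
    exact mem_compl.mp (mem_filter.mp hx).1
  have hwtsum : (Df.card : ℤ) * Fintype.card V ≤ 2 * ∑ K ∈ Df, wt K := by
    rw [← nsmul_eq_mul, ← Finset.sum_const, Finset.mul_sum]
    exact Finset.sum_le_sum hwt
  have hpos : ∀ K ∈ Df, 0 < cost K ∨ (Fintype.card V : ℤ) ≤ wt K := by
    intro K hK
    rw [hDf, mem_filter, hO, mem_filter, mem_image] at hK
    obtain ⟨⟨⟨x, hx, hxK⟩, _⟩, _⟩ := hK
    apply e2_pos hD h2 hc hr K
    exact ⟨x, mem_filter.mpr ⟨hx, hxK⟩⟩
  -- final arithmetic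
  have hmain : (Df.card : ℤ) * ((Fintype.card V : ℤ) - 1) - ∑ K ∈ Df, cost K
      < 2 * ((Fintype.card V : ℤ) - 1) := by
    have hD0 : 0 ≤ ∑ K ∈ Df, cost K := Finset.sum_nonneg (fun K _ => hcost0 K)
    rcases Nat.lt_or_ge Df.card 2 with hlt | hge
    · have : (Df.card : ℤ) ≤ 1 := by
        have : Df.card ≤ 1 := by omega
        exact_mod_cast this
      nlinarith
    · rcases Nat.lt_or_ge 2 Df.card with hgt | hle
      · have : (3 : ℤ) ≤ Df.card := by
          have : 3 ≤ Df.card := by omega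
          exact_mod_cast this
        nlinarith
      · have hcard2 : Df.card = 2 := le_antisymm hle hge
        obtain ⟨K1, K2, hne, hKK⟩ := Finset.card_eq_two.mp hcard2
        have hc2 : (Df.card : ℤ) = 2 := by rw [hcard2]; rfl
        rw [hc2]
        have hsum : ∑ K ∈ Df, cost K = cost K1 + cost K2 := by
          rw [hKK, Finset.sum_pair hne]
        have hsumw : ∑ K ∈ Df, wt K = wt K1 + wt K2 := by
          rw [hKK, Finset.sum_pair hne]
        have m1 : K1 ∈ Df := by rw [hKK]; simp
        have m2 : K2 ∈ Df := by rw [hKK]; simp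
        have hposs : 0 < ∑ K ∈ Df, cost K := by
          rcases hpos K1 m1 with h | h
          · rw [hsum]; have := hcost0 K2; linarith
          · have := hwt K2 m2
            rw [hsumw] at hE3
            linarith
        linarith
  have hfin : (O.card : ℤ) * ((Fintype.card V : ℤ) - 1)
      < ((S.card : ℤ) + 2) * ((Fintype.card V : ℤ) - 1) := by
    nlinarith
  have : (O.card : ℤ) < S.card + 2 := by
    by_contra hcon
    push Not at hcon
    nlinarith
  omega

theorem three_labels (κ : V → V → ι) {D : ℕ}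
    (hD : ∀ v i, (univ.filter (fun u => u ≠ v ∧ κ v u = i)).card ≤ D)
    (h2 : 2 * D + 2 ≤ Fintype.card V) : 3 ≤ Fintype.card ι := by
  by_contra hcon
  have hpos : 0 < Fintype.card V := by omega
  obtain ⟨v⟩ := Fintype.card_pos_iff.mp hpos
  have h1 : (univ.filter (fun u : V => u ≠ v)).card = Fintype.card V - 1 := by
    rw [Finset.filter_ne', Finset.card_erase_of_mem (mem_univ v), Finset.card_univ]
  have h3 := Finset.card_eq_sum_card_fiberwise (s := univ.filter (fun u : V => u ≠ v))
    (t := (univ : Finset ι)) (f := fun u => κ v u) (fun x _ => mem_univ _)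
  have h4 : ∑ i : ι, ((univ.filter (fun u : V => u ≠ v)).filter (fun u => κ v u = i)).card
      ≤ ∑ i : ι, D := by
    apply Finset.sum_le_sum
    intro i _
    rw [Finset.filter_filter]
    exact hD v i
  rw [Finset.sum_const, Finset.card_univ, smul_eq_mul] at h4
  have h6 : Fintype.card ι ≤ 2 := by omega
  have h7 : Fintype.card ι * D ≤ 2 * D := Nat.mul_le_mul_right D h6
  omega

theorem exists_regular (κ : V → V → ι) {D : ℕ}
    (hD : ∀ v i, (univ.filter (fun u => u ≠ v ∧ κ v u = i)).card ≤ D)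
    (h2 : 2 * D + 2 ≤ Fintype.card V) (hn : 5 ≤ Fintype.card V) :
    ∃ H : SimpleGraph V, ∀ v, ∃ a b, a ≠ b ∧ κ v a ≠ κ v b ∧
      ∀ w, H.Adj v w ↔ (w = a ∨ w = b) := by
  classical
  have hq := three_labels κ hD h2
  have heven : Even (Fintype.card (Node V ι)) := by
    rw [Fintype.card_sum, Fintype.card_prod, Fintype.card_prod, Fintype.card_fin]
    refine ⟨Fintype.card V * (Fintype.card ι - 1), ?_⟩
    obtain ⟨q, hq'⟩ : ∃ q, Fintype.card ι = q + 2 := ⟨Fintype.card ι - 2, by omega⟩
    rw [hq']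
    have e1 : q + 2 - 2 = q := by omega
    have e2 : q + 2 - 1 = q + 1 := by omega
    rw [e1, e2]
    ring
  obtain ⟨M, hM⟩ := tutte_form (gadget κ) heven
    (fun S comp hc => odd_count κ hD h2 hn hq S comp hc)
  rw [SimpleGraph.Subgraph.isPerfectMatching_iff] at hM
  choose p hp hpu using hM
  -- p is an involution
  have hpp : ∀ x y, M.Adj x y → p x = y := fun x y h => (hpu x y h).symm
  have hinv : ∀ x, p (p x) = x := fun x => hpp _ _ (hp x).symm
  -- partner of a dummy is a slot of the same vertex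
  have hdum : ∀ v (k : Fin (Fintype.card ι - 2)), ∃ i,
      p (Sum.inr (v, k) : Node V ι) = Sum.inl (v, i) := by
    intro v k
    have h := (hp (Sum.inr (v, k))).adj_sub
    rcases hx : p (Sum.inr (v, k) : Node V ι) with ⟨u, i⟩ | ⟨u, l⟩
    · rw [hx] at h
      have : u = v := h
      exact ⟨i, by rw [this]⟩
    · rw [hx] at h
      exact absurd h (fun h => h)
  choose sd hsd using hdum
  have hsdinj : ∀ v, Function.Injective (sd v) := by
    intro v k l hkl
    have h1 := hinv (Sum.inr (v, k) : Node V ι)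
    have h2 := hinv (Sum.inr (v, l) : Node V ι)
    rw [hsd, hkl, ← hsd, h2] at h1
    have := Sum.inr_injective h1
    exact (Prod.mk.inj this).2.symm
  -- the two free slots
  have hJ : ∀ v, ((univ.image (sd v))ᶜ : Finset ι).card = 2 := by
    intro v
    rw [Finset.card_compl, Finset.card_image_of_injective _ (hsdinj v), Finset.card_univ,
      Fintype.card_fin]
    omega
  have hfree : ∀ v i, i ∉ univ.image (sd v) → ∃ u, u ≠ v ∧ κ v u = i ∧
      p (Sum.inl (v, i) : Node V ι) = Sum.inl (u, κ u v) := by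
    intro v i hi
    have h := (hp (Sum.inl (v, i))).adj_sub
    rcases hx : p (Sum.inl (v, i) : Node V ι) with ⟨u, j⟩ | ⟨u, l⟩
    · rw [hx] at h
      obtain ⟨h1, h3, h4⟩ := (h : u ≠ v ∧ κ v u = i ∧ κ u v = j)
      exact ⟨u, h1, h3, by rw [h4]⟩
    · exfalso
      rw [hx] at h
      have huv : u = v := h
      subst huv
      have h1 := hinv (Sum.inl (u, i) : Node V ι)
      rw [hx, hsd] at h1
      have := Sum.inl_injective h1
      apply hi
      rw [mem_image]
      exact ⟨l, mem_univ _, (Prod.mk.inj this).2⟩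
  let H : SimpleGraph V :=
    { Adj := fun v w => v ≠ w ∧ p (Sum.inl (v, κ v w) : Node V ι) = Sum.inl (w, κ w v)
      symm := by
        constructor
        rintro v w ⟨h1, h3⟩
        refine ⟨h1.symm, ?_⟩
        rw [← h3, hinv]
      loopless := by
        constructor
        rintro v ⟨h1, _⟩
        exact h1 rfl }
  refine ⟨H, fun v => ?_⟩
  obtain ⟨i, j, hij, hset⟩ := Finset.card_eq_two.mp (hJ v)
  have hi : i ∉ univ.image (sd v) := by
    rw [← mem_compl, hset]; simp
  have hj : j ∉ univ.image (sd v) := by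
    rw [← mem_compl, hset]; simp
  obtain ⟨a, ha1, ha2, ha3⟩ := hfree v i hi
  obtain ⟨b, hb1, hb2, hb3⟩ := hfree v j hj
  refine ⟨a, b, ?_, ?_, ?_⟩
  · rintro rfl
    exact hij (ha2.symm.trans hb2)
  · rw [ha2, hb2]; exact hij
  · intro w
    constructor
    · rintro ⟨hvw, hpw⟩
      have hnot : κ v w ∉ univ.image (sd v) := by
        intro hmem
        rw [mem_image] at hmem
        obtain ⟨k, _, hk⟩ := hmem
        have h1 := hinv (Sum.inr (v, k) : Node V ι)
        rw [hsd, hk, hpw] at h1
        exact absurd h1 (by simp)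
      rw [← mem_compl, hset, mem_insert, mem_singleton] at hnot
      rcases hnot with h | h
      · left
        rw [h, ha3] at hpw
        exact (Prod.mk.inj (Sum.inl_injective hpw)).1.symm
      · right
        rw [h, hb3] at hpw
        exact (Prod.mk.inj (Sum.inl_injective hpw)).1.symm
    · rintro (rfl | rfl)
      · exact ⟨ha1.symm, by rw [ha2]; exact ha3⟩
      · exact ⟨hb1.symm, by rw [hb2]; exact hb3⟩

end Final

end Pool.H28BE
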